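import Pool.Graph.R_pool_sql_team_seeded_620a6dc7.Helper718_cayley.G

/-!
# Assembling a Hamiltonian cycle from parts and links

A finite set `X` is partitioned by `m : X → V`; the links are given by a fixed-point-free
involution `μ` of the set `T` of their ends. If every part can be covered along with every
prescribed pairing of its ends of links, then there is a Hamiltonian cycle.
-/

set_option autoImplicit false

namespace Pool.Agent.Helper43.LG

open Equiv Pool.Agent.H718C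

/-- `τ` with the set `D` of its real steps is a system of paths in the part `v` whose ends are the
points of `T` in this part. -/
structure Cfg {X V : Type*} (m : X → V) (R : X → X → Prop) (T : Set X) (v : V) (τ : Perm X)
    (D : Set X) : Prop where
  real : ∀ x, m x = v → x ∈ D → R x (τ x)
  non : ∀ x, m x = v → x ∉ T → x ∈ D ∧ τ.symm x ∈ D
  ter : ∀ x, m x = v → x ∈ T → (x ∈ D ↔ τ.symm x ∉ D)

/-- a set closed under the real steps and the links -/
def Cl {X : Type*} (τ : Perm X) (D : Set X) (T : Set X) (μ : X → X) (P : Set X) : Prop :=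
  (∀ x ∈ D, (x ∈ P ↔ τ x ∈ P)) ∧ ∀ p ∈ T, p ∈ P → μ p ∈ P

theorem Cl.compl {X : Type*} {τ : Perm X} {D : Set X} {T : Set X} {μ : X → X} {P : Set X}
    (hμ : ∀ p ∈ T, μ p ∈ T ∧ μ (μ p) = p) (h : Cl τ D T μ P) : Cl τ D T μ Pᶜ := by
  refine ⟨fun x hx => ?_, fun p hp hpP => ?_⟩
  · rw [Set.mem_compl_iff, Set.mem_compl_iff, h.1 x hx]
  · intro h1
    apply hpP
    have := h.2 (μ p) (hμ p hp).1 h1
    rwa [(hμ p hp).2] at this

/-- a finite set with a fixed-point-free involution has even cardinality -/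
theorem even_of_invol {X : Type*} [Finite X] (S : Set X) (g : X → X) (h : ∀ x ∈ S, g x ∈ S)
    (h1 : ∀ x ∈ S, g (g x) = x) (h2 : ∀ x ∈ S, g x ≠ x) : Even S.ncard := by
  classical
  have : Fintype X := Fintype.ofFinite X
  have e1 : S.ncard = (Finset.univ.filter (fun x => x ∈ S)).card := by
    rw [← Set.ncard_coe_finset]
    congr 1
    ext x
    simp
  have h3 : ∑ x ∈ Finset.univ.filter (fun x => x ∈ S), (1 : ZMod 2) = 0 := by
    refine Finset.sum_involution (fun x _ => g x) ?_ ?_ ?_ ?_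
    · intro x _
      decide
    · intro x hx _
      exact h2 x (Finset.mem_filter.1 hx).2
    · intro x hx
      exact Finset.mem_filter.2 ⟨Finset.mem_univ _, h x (Finset.mem_filter.1 hx).2⟩
    · intro x hx
      exact h1 x (Finset.mem_filter.1 hx).2
  rw [Finset.sum_const, nsmul_eq_mul, mul_one] at h3
  rw [e1]
  exact even_iff_two_dvd.2 ((ZMod.natCast_eq_zero_iff _ _).1 h3)

/-- the parity of the number of ends in a part -/
theorem parity {X V : Type*} [Finite X] {m : X → V} {R : X → X → Prop} {T : Set X} {τ : Perm X}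
    {D : Set X} {μ : X → X} (hfib : ∀ x, m (τ x) = m x)
    (hμ : ∀ p ∈ T, μ p ∈ T ∧ μ (μ p) = p ∧ μ p ≠ p) (v : V) (hc : ∀ u, u ≠ v → Cfg m R T u τ D)
    (P : Set X) (h1 : ∀ x ∈ D, m x ≠ v → (x ∈ P ↔ τ x ∈ P)) (h2 : ∀ p ∈ T, p ∈ P → μ p ∈ P) :
    Even {x | x ∈ P ∧ x ∈ T ∧ m x = v}.ncard := by
  classical
  have hfib' : ∀ x, m (τ.symm x) = m x := by
    intro x
    have := hfib (τ.symm x)
    rw [Equiv.apply_symm_apply] at this
    exact this.symm
  -- all ends in `P`
  have a1 : Even {x | x ∈ P ∧ x ∈ T}.ncard := by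
    apply even_of_invol _ μ
    · rintro x ⟨hx, hT⟩
      exact ⟨h2 x hT hx, (hμ x hT).1⟩
    · rintro x ⟨hx, hT⟩
      exact (hμ x hT).2.1
    · rintro x ⟨hx, hT⟩
      exact (hμ x hT).2.2
  -- the ends outside of the part
  set B1 : Set X := {x | x ∈ P ∧ m x ≠ v ∧ x ∉ D} with hB1
  set B2 : Set X := {x | x ∈ P ∧ m x ≠ v ∧ τ.symm x ∉ D} with hB2
  have a2 : {x | x ∈ P ∧ m x ≠ v ∧ x ∈ D}.ncard = {x | x ∈ P ∧ m x ≠ v ∧ τ.symm x ∈ D}.ncard := by
    have e : {x | x ∈ P ∧ m x ≠ v ∧ τ.symm x ∈ D} = τ '' {x | x ∈ P ∧ m x ≠ v ∧ x ∈ D} := by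
      ext x
      constructor
      · rintro ⟨hx, hm, hD⟩
        refine ⟨τ.symm x, ⟨?_, ?_, hD⟩, Equiv.apply_symm_apply _ _⟩
        · rw [h1 _ hD (by rw [hfib']; exact hm), Equiv.apply_symm_apply]
          exact hx
        · rw [hfib']; exact hm
      · rintro ⟨y, ⟨hy, hm, hD⟩, rfl⟩
        refine ⟨(h1 y hD hm).1 hy, ?_, ?_⟩
        · rw [hfib]; exact hm
        · rw [Equiv.symm_apply_apply]; exact hD
    rw [e, Set.ncard_image_of_injective _ τ.injective]
  have a3 : B1.ncard = B2.ncard := by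
    have e1 : {x | x ∈ P ∧ m x ≠ v}.ncard = {x | x ∈ P ∧ m x ≠ v ∧ x ∈ D}.ncard + B1.ncard := by
      rw [← Set.ncard_union_eq]
      · congr 1
        ext x
        simp only [Set.mem_ofPred_eq, Set.mem_union, hB1]
        tauto
      · rw [Set.disjoint_left]
        rintro x ⟨-, -, hx⟩ ⟨-, -, hx'⟩
        exact hx' hx
    have e2 : {x | x ∈ P ∧ m x ≠ v}.ncard =
        {x | x ∈ P ∧ m x ≠ v ∧ τ.symm x ∈ D}.ncard + B2.ncard := by
      rw [← Set.ncard_union_eq]
      · congr 1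
        ext x
        simp only [Set.mem_ofPred_eq, Set.mem_union, hB2]
        tauto
      · rw [Set.disjoint_left]
        rintro x ⟨-, -, hx⟩ ⟨-, -, hx'⟩
        exact hx' hx
    omega
  have a4 : {x | x ∈ P ∧ x ∈ T ∧ m x ≠ v}.ncard = B1.ncard + B2.ncard := by
    rw [← Set.ncard_union_eq]
    · congr 1
      ext x
      simp only [Set.mem_ofPred_eq, Set.mem_union, hB1, hB2]
      constructor
      · rintro ⟨hx, hT, hm⟩
        by_cases hD : x ∈ D
        · exact Or.inr ⟨hx, hm, ((hc (m x) hm).ter x rfl hT).1 hD⟩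
        · exact Or.inl ⟨hx, hm, hD⟩
      · rintro (⟨hx, hm, hD⟩ | ⟨hx, hm, hD⟩)
        · refine ⟨hx, ?_, hm⟩
          by_contra hT
          exact hD ((hc (m x) hm).non x rfl hT).1
        · refine ⟨hx, ?_, hm⟩
          by_contra hT
          exact hD ((hc (m x) hm).non x rfl hT).2
    · rw [Set.disjoint_left]
      rintro x ⟨-, hm, hx⟩ ⟨-, -, hx'⟩
      by_cases hT : x ∈ T
      · exact hx (((hc (m x) hm).ter x rfl hT).2 hx')
      · exact hx ((hc (m x) hm).non x rfl hT).1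
  have a5 : {x | x ∈ P ∧ x ∈ T}.ncard =
      {x | x ∈ P ∧ x ∈ T ∧ m x = v}.ncard + {x | x ∈ P ∧ x ∈ T ∧ m x ≠ v}.ncard := by
    rw [← Set.ncard_union_eq]
    · congr 1
      ext x
      simp only [Set.mem_ofPred_eq, Set.mem_union]
      tauto
    · rw [Set.disjoint_left]
      rintro x ⟨-, -, hx⟩ ⟨-, -, hx'⟩
      exact hx' hx
  rw [a5, a4, a3] at a1
  rw [Nat.even_add] at a1
  exact a1.2 ⟨B2.ncard, rfl⟩

/-- the possibility to cover the part `v` for every pairing of its ends -/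
def Star {X V : Type*} (m : X → V) (R : X → X → Prop) (T : Set X) (v : V) : Prop :=
  ∀ lam : X → X, (∀ p ∈ T, m p = v → lam p ∈ T ∧ m (lam p) = v ∧ lam (lam p) = p ∧ lam p ≠ p) →
    ∃ (τ : Perm X) (D : Set X), (∀ x, m (τ x) = m x) ∧ Cfg m R T v τ D ∧
      ∀ P : Set X, (∀ x, m x = v → x ∈ D → (x ∈ P ↔ τ x ∈ P)) →
        (∀ p ∈ T, m p = v → p ∈ P → lam p ∈ P) → ∀ x y, m x = v → m y = v → x ∈ P → y ∈ P

/-- replacing a permutation in one part -/
theorem exists_glue {X V : Type*} [Finite X] (m : X → V) (v : V) (τ τ1 : Perm X)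
    (h : ∀ x, m (τ x) = m x) (h1 : ∀ x, m (τ1 x) = m x) :
    ∃ τ' : Perm X, (∀ x, m (τ' x) = m x) ∧ (∀ x, m x = v → τ' x = τ1 x) ∧
      ∀ x, m x ≠ v → τ' x = τ x := by
  classical
  let f : X → X := fun x => if m x = v then τ1 x else τ x
  have f1 : ∀ x, m x = v → f x = τ1 x := fun x hx => if_pos hx
  have f2 : ∀ x, m x ≠ v → f x = τ x := fun x hx => if_neg hx
  have fm : ∀ x, m (f x) = m x := by
    intro x
    by_cases hx : m x = v
    · rw [f1 x hx, h1]
    · rw [f2 x hx, h]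
  have hinj : Function.Injective f := by
    intro x y hxy
    have hm : m x = m y := by rw [← fm x, ← fm y, hxy]
    by_cases hx : m x = v
    · rw [f1 x hx, f1 y (by rw [← hm]; exact hx)] at hxy
      exact τ1.injective hxy
    · rw [f2 x hx, f2 y (by rw [← hm]; exact hx)] at hxy
      exact τ.injective hxy
  exact ⟨Equiv.ofBijective f (Finite.injective_iff_bijective.1 hinj), fm, f1, f2⟩

/-- one more part -/
theorem add_part {X V : Type*} [Finite X] {m : X → V} {R : X → X → Prop} {T : Set X}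
    {μ : X → X} (hμ : ∀ p ∈ T, μ p ∈ T ∧ μ (μ p) = p ∧ μ p ≠ p) (v : V) (hstar : Star m R T v)
    (S : Set V) (hS : ∃ (τ : Perm X) (D : Set X), (∀ x, m (τ x) = m x) ∧
      (∀ u, u ≠ v → Cfg m R T u τ D) ∧ (v ∈ S → Cfg m R T v τ D) ∧
      ∀ u ∈ S, ∀ x y, m x = u → m y = u → ∀ P, Cl τ D T μ P → x ∈ P → y ∈ P) (hv : v ∉ S) :
    ∃ (τ : Perm X) (D : Set X), (∀ x, m (τ x) = m x) ∧ (∀ u, Cfg m R T u τ D) ∧
      ∀ u ∈ insert v S, ∀ x y, m x = u → m y = u → ∀ P, Cl τ D T μ P → x ∈ P → y ∈ P := by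
  classical
  have : Fintype X := Fintype.ofFinite X
  obtain ⟨τ, D, hfib, hcfg, -, hcon⟩ := hS
  -- minimal closed sets
  let Cl' : Set X → Prop := fun P =>
    (∀ x ∈ D, m x ≠ v → (x ∈ P ↔ τ x ∈ P)) ∧ ∀ p ∈ T, p ∈ P → μ p ∈ P
  let K : X → Set X := fun x => {y | ∀ P, Cl' P → x ∈ P → y ∈ P}
  have K0 : ∀ x, x ∈ K x := fun x P _ hx => hx
  have K1 : ∀ x, Cl' (K x) := by
    intro x
    refine ⟨fun y hy hm => ⟨fun h P hP hx => (hP.1 y hy hm).1 (h P hP hx),
      fun h P hP hx => (hP.1 y hy hm).2 (h P hP hx)⟩, fun p hp h P hP hx => hP.2 p hp (h P hP hx)⟩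
  have hcompl : ∀ P, Cl' P → Cl' Pᶜ := by
    rintro P ⟨h1, h2⟩
    refine ⟨fun x hx hm => ?_, fun p hp hpP h => hpP ?_⟩
    · rw [Set.mem_compl_iff, Set.mem_compl_iff, h1 x hx hm]
    · have := h2 (μ p) (hμ p hp).1 h
      rwa [(hμ p hp).2.1] at this
  have K2 : ∀ x y, y ∈ K x → K y = K x := by
    intro x y hy
    ext z
    constructor
    · intro hz P hP hx
      exact hz P hP (hy P hP hx)
    · intro hz P hP hyP
      by_contra hzP
      have hx : x ∉ Pᶜ := fun hx => (hy Pᶜ (hcompl P hP) hx) hyP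
      exact hzP (hz P hP (not_not.1 hx))
  -- the pairing
  let Y := {p : X // p ∈ T ∧ m p = v}
  have hY : ∀ w : Set X, Even (Finset.univ.filter (fun y : Y => K y.1 = w)).card := by
    intro w
    by_cases hw : ∃ y : Y, K y.1 = w
    · obtain ⟨y0, rfl⟩ := hw
      have h1 := parity (R := R) hfib hμ v hcfg (K y0.1) (K1 y0.1).1 (K1 y0.1).2
      have h2 : {x | x ∈ K y0.1 ∧ x ∈ T ∧ m x = v} =
          ((Finset.univ.filter (fun y : Y => K y.1 = K y0.1)).image Subtype.val : Finset X) := by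
        ext x
        simp only [Set.mem_ofPred_eq, Finset.coe_image, Finset.coe_filter, Finset.mem_univ,
          true_and, Set.mem_image]
        constructor
        · rintro ⟨hx, hT, hm⟩
          exact ⟨⟨x, hT, hm⟩, K2 _ _ hx, rfl⟩
        · rintro ⟨y, hy, rfl⟩
          refine ⟨?_, y.2.1, y.2.2⟩
          rw [← hy]
          exact K0 _
      rw [h2, Set.ncard_coe_finset, Finset.card_image_of_injective _ Subtype.val_injective] at h1
      exact h1
    · have : Finset.univ.filter (fun y : Y => K y.1 = w) = ∅ := by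
        rw [Finset.filter_eq_empty_iff]
        intro y _ hy
        exact hw ⟨y, hy⟩
      rw [this]
      exact ⟨0, rfl⟩
  obtain ⟨π, π1, π2, π3⟩ := exists_pairing (fun y : Y => K y.1) hY
  let lam : X → X := fun x => if h : x ∈ T ∧ m x = v then (π ⟨x, h⟩).1 else x
  have hlam : ∀ (x : X) (h : x ∈ T ∧ m x = v), lam x = (π ⟨x, h⟩).1 := fun x h => dif_pos h
  have hlam2 : ∀ p ∈ T, m p = v → lam p ∈ T ∧ m (lam p) = v ∧ lam (lam p) = p ∧ lam p ≠ p := by
    intro p hp hm
    rw [hlam p ⟨hp, hm⟩]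
    refine ⟨(π ⟨p, hp, hm⟩).2.1, (π ⟨p, hp, hm⟩).2.2, ?_, ?_⟩
    · rw [hlam _ (π ⟨p, hp, hm⟩).2]
      have h1 : π (π ⟨p, hp, hm⟩) = ⟨p, hp, hm⟩ := by
        rw [← Perm.mul_apply, π1, Perm.one_apply]
      have h2 : (⟨(π ⟨p, hp, hm⟩).1, (π ⟨p, hp, hm⟩).2⟩ : Y) = π ⟨p, hp, hm⟩ := rfl
      rw [h2, h1]
    · intro h
      exact π2 ⟨p, hp, hm⟩ (Subtype.ext h)
  have hlam3 : ∀ p ∈ T, m p = v → lam p ∈ K p := by
    intro p hp hm
    have h1 : K (π ⟨p, hp, hm⟩).1 = K p := π3 ⟨p, hp, hm⟩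
    rw [hlam p ⟨hp, hm⟩, ← h1]
    exact K0 _
  obtain ⟨τ1, D1, e1, e2, e3⟩ := hstar lam hlam2
  obtain ⟨τ', g1, g2, g3⟩ := exists_glue m v τ τ1 hfib e1
  set D' : Set X := {x | (m x = v ∧ x ∈ D1) ∨ (m x ≠ v ∧ x ∈ D)} with hD'
  have d1 : ∀ x, m x = v → (x ∈ D' ↔ x ∈ D1) := by
    intro x hx
    simp only [hD', Set.mem_ofPred_eq]
    tauto
  have d2 : ∀ x, m x ≠ v → (x ∈ D' ↔ x ∈ D) := by
    intro x hx
    simp only [hD', Set.mem_ofPred_eq]
    tauto
  have s0 : ∀ x, m (τ'.symm x) = m x := by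
    intro x
    have := g1 (τ'.symm x)
    rw [Equiv.apply_symm_apply] at this
    exact this.symm
  have s1 : ∀ x, m x = v → τ'.symm x = τ1.symm x := by
    intro x hx
    rw [Equiv.eq_symm_apply, ← g2 _ (by rw [s0]; exact hx), Equiv.apply_symm_apply]
  have s2 : ∀ x, m x ≠ v → τ'.symm x = τ.symm x := by
    intro x hx
    rw [Equiv.eq_symm_apply, ← g3 _ (by rw [s0]; exact hx), Equiv.apply_symm_apply]
  have hfib1' : ∀ x, m (τ1.symm x) = m x := by
    intro x
    have := e1 (τ1.symm x)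
    rw [Equiv.apply_symm_apply] at this
    exact this.symm
  have hfib' : ∀ x, m (τ.symm x) = m x := by
    intro x
    have := hfib (τ.symm x)
    rw [Equiv.apply_symm_apply] at this
    exact this.symm
  have hcfg' : ∀ u, Cfg m R T u τ' D' := by
    intro u
    by_cases hu : u = v
    · subst hu
      refine ⟨fun x hx hxD => ?_, fun x hx hT => ?_, fun x hx hT => ?_⟩
      · rw [g2 x hx]
        exact e2.real x hx ((d1 x hx).1 hxD)
      · rw [s1 x hx, d1 x hx, d1 _ (by rw [hfib1']; exact hx)]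
        exact e2.non x hx hT
      · rw [s1 x hx, d1 x hx, d1 _ (by rw [hfib1']; exact hx)]
        exact e2.ter x hx hT
    · have hc := hcfg u hu
      refine ⟨fun x hx hxD => ?_, fun x hx hT => ?_, fun x hx hT => ?_⟩
      · have hxv : m x ≠ v := by rw [hx]; exact hu
        rw [g3 x hxv]
        exact hc.real x hx ((d2 x hxv).1 hxD)
      · have hxv : m x ≠ v := by rw [hx]; exact hu
        rw [s2 x hxv, d2 x hxv, d2 _ (by rw [hfib']; exact hxv)]
        exact hc.non x hx hT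
      · have hxv : m x ≠ v := by rw [hx]; exact hu
        rw [s2 x hxv, d2 x hxv, d2 _ (by rw [hfib']; exact hxv)]
        exact hc.ter x hx hT
  -- closed sets for the new configuration
  have hnew : ∀ P, Cl τ' D' T μ P → Cl' P := by
    rintro P ⟨h1, h2⟩
    refine ⟨fun x hx hm => ?_, h2⟩
    rw [h1 x ((d2 x hm).2 hx), g3 x hm]
  have hv1 : ∀ x y, m x = v → m y = v → ∀ P, Cl τ' D' T μ P → x ∈ P → y ∈ P := by
    intro x y hx hy P hP hxP
    refine e3 P ?_ ?_ x y hx hy hxP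
    · intro z hz hzD
      rw [hP.1 z ((d1 z hz).2 hzD), g2 z hz]
    · intro p hp hm hpP
      exact hlam3 p hp hm P (hnew P hP) hpP
  have hold : ∀ P, Cl τ' D' T μ P → (∀ x ∈ P, m x ≠ v) → Cl τ D T μ P := by
    rintro P hP hPv
    refine ⟨fun x hx => ?_, hP.2⟩
    by_cases hm : m x = v
    · constructor
      · intro h; exact absurd hm (hPv x h)
      · intro h; exact absurd (by rw [hfib]; exact hm) (hPv _ h)
    · rw [hP.1 x ((d2 x hm).2 hx), g3 x hm]
  refine ⟨τ', D', g1, hcfg', ?_⟩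
  rintro u (rfl | hu) x y hx hy P hP hxP
  · exact hv1 x y hx hy P hP hxP
  · by_contra hyP
    by_cases hPv : ∃ z ∈ P, m z = v
    · obtain ⟨z, hz, hzv⟩ := hPv
      have hc : Cl τ' D' T μ Pᶜ := hP.compl (fun p hp => ⟨(hμ p hp).1, (hμ p hp).2.1⟩)
      have h1 := hold Pᶜ hc (by
        intro w hw hwv
        exact hw (hv1 z w hzv hwv P hP hz))
      exact hcon u hu y x hy hx Pᶜ h1 hyP hxP
    · push Not at hPv
      exact hyP (hcon u hu x y hx hy P (hold P hP hPv) hxP)

/-- from a connected configuration to a cyclic permutation -/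
theorem cyclic_of_cfg {X V : Type*} [Finite X] {m : X → V} {R : X → X → Prop}
    (hR : ∀ x y, R x y → R y x) {T : Set X} {μ : X → X}
    (hμ : ∀ p ∈ T, μ p ∈ T ∧ μ (μ p) = p ∧ μ p ≠ p ∧ R p (μ p)) {τ : Perm X} {D : Set X}
    (hc : ∀ u, Cfg m R T u τ D) (hcon : ∀ P, Cl τ D T μ P → P.Nonempty → P = Set.univ) :
    ∃ σ : Perm X, (∀ x, R x (σ x)) ∧ ∀ x y, σ.SameCycle x y := by
  classical
  have non : ∀ x, x ∉ T → x ∈ D ∧ τ.symm x ∈ D := fun x => (hc (m x)).non x rfl
  have ter : ∀ x, x ∈ T → (x ∈ D ↔ τ.symm x ∉ D) := fun x => (hc (m x)).ter x rfl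
  let fict : X → Bool := fun x => if x ∈ D then false else true
  let f : X × Bool → X × Bool := fun y =>
    if y.2 = true then (if y.1 ∈ D then (τ y.1, false) else (μ y.1, fict (μ y.1)))
    else (if τ.symm y.1 ∈ D then (τ.symm y.1, true) else (μ y.1, fict (μ y.1)))
  have f1 : ∀ x, x ∈ D → f (x, true) = (τ x, false) := by
    intro x hx
    simp only [f, if_true, if_pos hx]
  have f2 : ∀ x, x ∉ D → f (x, true) = (μ x, fict (μ x)) := by
    intro x hx
    simp only [f, if_true, if_neg hx]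
  have f3 : ∀ x, τ.symm x ∈ D → f (x, false) = (τ.symm x, true) := by
    intro x hx
    simp only [f, Bool.false_eq_true, if_false, if_pos hx]
  have f4 : ∀ x, τ.symm x ∉ D → f (x, false) = (μ x, fict (μ x)) := by
    intro x hx
    simp only [f, Bool.false_eq_true, if_false, if_neg hx]
  have t1 : ∀ x, x ∉ D → x ∈ T := by
    intro x hx
    by_contra hT
    exact hx (non x hT).1
  have t2 : ∀ x, τ.symm x ∉ D → x ∈ T := by
    intro x hx
    by_contra hT
    exact hx (non x hT).2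
  -- the half-edge of the link at `x`
  have f5 : ∀ x ∈ T, f (x, fict x) = (μ x, fict (μ x)) := by
    intro x hx
    by_cases hD : x ∈ D
    · have : fict x = false := if_pos hD
      rw [this]
      exact f4 x ((ter x hx).1 hD)
    · have : fict x = true := if_neg hD
      rw [this]
      exact f2 x hD
  have hinv : Function.Involutive f := by
    rintro ⟨x, β⟩
    have key : ∀ x ∈ T, f (μ x, fict (μ x)) = (x, fict x) := by
      intro x hx
      rw [f5 _ (hμ x hx).1, (hμ x hx).2.1]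
    cases β
    · by_cases h : τ.symm x ∈ D
      · rw [f3 x h, f1 _ h, Equiv.apply_symm_apply]
      · have hT := t2 x h
        rw [f4 x h, key x hT]
        have : fict x = false := if_pos ((ter x hT).2 h)
        rw [this]
    · by_cases h : x ∈ D
      · rw [f1 x h, f3 _ (by rw [Equiv.symm_apply_apply]; exact h), Equiv.symm_apply_apply]
      · have hT := t1 x h
        rw [f2 x h, key x hT]
        have : fict x = true := if_neg h
        rw [this]
  have hfne : ∀ y, f y ≠ y := by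
    rintro ⟨x, β⟩ h
    cases β
    · by_cases hD : τ.symm x ∈ D
      · rw [f3 x hD] at h
        exact absurd (Prod.ext_iff.1 h).2 (by simp)
      · rw [f4 x hD] at h
        exact (hμ x (t2 x hD)).2.2.1 (Prod.ext_iff.1 h).1
    · by_cases hD : x ∈ D
      · rw [f1 x hD] at h
        exact absurd (Prod.ext_iff.1 h).2 (by simp)
      · rw [f2 x hD] at h
        exact (hμ x (t1 x hD)).2.2.1 (Prod.ext_iff.1 h).1
  obtain ⟨σ, hσ1, hσ2⟩ := perm_of_invol (hinv.toPerm f) (by ext y <;> simp [hinv y]) hfne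
  have hσ1' : ∀ x β, Und σ x (f (x, β)).1 := hσ1
  have hσ2' : ∀ x, ∃ β, σ x = (f (x, β)).1 := hσ2
  refine ⟨σ, ?_, ?_⟩
  · intro x
    obtain ⟨β, hβ⟩ := hσ2' x
    rw [hβ]
    cases β
    · by_cases hD : τ.symm x ∈ D
      · rw [f3 x hD]
        apply hR
        have := (hc (m (τ.symm x))).real (τ.symm x) rfl hD
        rwa [Equiv.apply_symm_apply] at this
      · rw [f4 x hD]
        exact (hμ x (t2 x hD)).2.2.2
    · by_cases hD : x ∈ D
      · rw [f1 x hD]
        exact (hc (m x)).real x rfl hD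
      · rw [f2 x hD]
        exact (hμ x (t1 x hD)).2.2.2
  · intro x y
    have hP := hcon {z | σ.SameCycle x z} (by
      refine ⟨fun z hz => ?_, fun p hp h => ?_⟩
      · have h1 : σ.SameCycle z (τ z) := by
          have := hσ1' z true
          rw [f1 z hz] at this
          exact this.sameCycle
        exact ⟨fun h => h.trans h1, fun h => h.trans h1.symm⟩
      · have h1 : σ.SameCycle p (μ p) := by
          have := hσ1' p (fict p)
          rw [f5 p hp] at this
          exact this.sameCycle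
        exact h.trans h1) ⟨x, Equiv.Perm.SameCycle.refl _ _⟩
    have : y ∈ {z | σ.SameCycle x z} := by rw [hP]; trivial
    exact this

/-- **Assembly.** -/
theorem assemble {X V : Type*} [Finite X] [Finite V] (m : X → V) (R : X → X → Prop)
    (hR : ∀ x y, R x y → R y x) (T : Set X) (μ : X → X)
    (hμ : ∀ p ∈ T, μ p ∈ T ∧ μ (μ p) = p ∧ μ p ≠ p ∧ R p (μ p))
    (hstar : ∀ v, Star m R T v) (heven : ∀ v, Even {x | x ∈ T ∧ m x = v}.ncard)
    (hconn : ∀ P : Set V, (∀ p ∈ T, m p ∈ P → m (μ p) ∈ P) → P.Nonempty → P = Set.univ) :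
    ∃ σ : Perm X, (∀ x, R x (σ x)) ∧ ∀ x y, σ.SameCycle x y := by
  classical
  have : Fintype X := Fintype.ofFinite X
  have hμ' : ∀ p ∈ T, μ p ∈ T ∧ μ (μ p) = p ∧ μ p ≠ p :=
    fun p hp => ⟨(hμ p hp).1, (hμ p hp).2.1, (hμ p hp).2.2.1⟩
  -- an initial configuration
  have hinit : ∃ (τ : Perm X) (D : Set X), (∀ x, m (τ x) = m x) ∧ ∀ u, Cfg m R T u τ D := by
    have h1 : ∀ v, ∃ (τ : Perm X) (D : Set X), (∀ x, m (τ x) = m x) ∧ Cfg m R T v τ D := by
      intro v
      let Y := {p : X // p ∈ T ∧ m p = v}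
      obtain ⟨π, π1, π2⟩ := exists_invol (Y := Y) (by
        have h2 : {x | x ∈ T ∧ m x = v}.ncard = Fintype.card Y := by
          rw [← Nat.card_eq_fintype_card]
          rfl
        rw [← h2]
        exact heven v)
      obtain ⟨τ, D, h3, h4, -⟩ := hstar v
        (fun x => if h : x ∈ T ∧ m x = v then (π ⟨x, h⟩).1 else x) (by
          intro p hp hm
          have e : ∀ (x : X) (h : x ∈ T ∧ m x = v),
            (if h : x ∈ T ∧ m x = v then (π ⟨x, h⟩).1 else x) = (π ⟨x, h⟩).1 := fun x h => dif_pos h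
          rw [e p ⟨hp, hm⟩]
          refine ⟨(π ⟨p, hp, hm⟩).2.1, (π ⟨p, hp, hm⟩).2.2, ?_, ?_⟩
          · rw [e _ (π ⟨p, hp, hm⟩).2]
            have h1 : π (π ⟨p, hp, hm⟩) = ⟨p, hp, hm⟩ := by
              rw [← Perm.mul_apply, π1, Perm.one_apply]
            have h2 : (⟨(π ⟨p, hp, hm⟩).1, (π ⟨p, hp, hm⟩).2⟩ : Y) = π ⟨p, hp, hm⟩ := rfl
            rw [h2, h1]
          · intro h
            exact π2 ⟨p, hp, hm⟩ (Subtype.ext h))
      exact ⟨τ, D, h3, h4⟩
    choose τ D h2 h3 using h1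
    let f : X → X := fun x => τ (m x) x
    have fm : ∀ x, m (f x) = m x := fun x => h2 (m x) x
    have hinj : Function.Injective f := by
      intro x y hxy
      have hm : m x = m y := by rw [← fm x, ← fm y, hxy]
      have : τ (m x) x = τ (m x) y := by
        have h4 : f y = τ (m x) y := by
          change τ (m y) y = _
          rw [hm]
        rw [← h4]
        exact hxy
      exact (τ (m x)).injective this
    let τ' : Perm X := Equiv.ofBijective f (Finite.injective_iff_bijective.1 hinj)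
    have τ1 : ∀ x, τ' x = τ (m x) x := fun x => rfl
    have s0 : ∀ x, m (τ'.symm x) = m x := by
      intro x
      have := fm (τ'.symm x)
      have h5 : f (τ'.symm x) = x := Equiv.apply_symm_apply τ' x
      rw [h5] at this
      exact this.symm
    have s1 : ∀ x, τ'.symm x = (τ (m x)).symm x := by
      intro x
      rw [Equiv.eq_symm_apply]
      have h5 : τ' (τ'.symm x) = x := Equiv.apply_symm_apply τ' x
      rw [τ1, s0] at h5
      exact h5
    have s2 : ∀ x, m ((τ (m x)).symm x) = m x := by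
      intro x
      rw [← s1, s0]
    refine ⟨τ', {x | x ∈ D (m x)}, fm, ?_⟩
    intro u
    refine ⟨fun x hx hxD => ?_, fun x hx hT => ?_, fun x hx hT => ?_⟩
    · rw [τ1]
      exact (h3 (m x)).real x rfl hxD
    · rw [s1]
      simp only [Set.mem_ofPred_eq, s2]
      exact (h3 (m x)).non x rfl hT
    · rw [s1]
      simp only [Set.mem_ofPred_eq, s2]
      exact (h3 (m x)).ter x rfl hT
  -- all parts
  have hall : ∀ S : Set V, ∃ (τ : Perm X) (D : Set X), (∀ x, m (τ x) = m x) ∧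
      (∀ u, Cfg m R T u τ D) ∧
      ∀ u ∈ S, ∀ x y, m x = u → m y = u → ∀ P, Cl τ D T μ P → x ∈ P → y ∈ P := by
    intro S
    refine Set.Finite.induction_on S (Set.toFinite S) ?_ ?_
    · obtain ⟨τ, D, h1, h2⟩ := hinit
      exact ⟨τ, D, h1, h2, fun u hu => absurd hu (Set.notMem_empty u)⟩
    · intro v S' hv _ ⟨τ, D, h1, h2, h3⟩
      exact add_part hμ' v (hstar v) S' ⟨τ, D, h1, fun u _ => h2 u, fun _ => h2 v, h3⟩ hv
  obtain ⟨τ, D, h1, h2, h3⟩ := hall Set.univ
  refine cyclic_of_cfg hR hμ h2 ?_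
  intro P hP ⟨x0, hx0⟩
  have hPV := hconn {v | ∃ x ∈ P, m x = v} (by
    rintro p hp ⟨x, hx, hm⟩
    have h4 : p ∈ P := h3 (m p) (Set.mem_univ _) x p hm rfl P hP hx
    exact ⟨μ p, hP.2 p hp h4, rfl⟩) ⟨m x0, x0, hx0, rfl⟩
  ext y
  simp only [Set.mem_univ, iff_true]
  have : m y ∈ {v | ∃ x ∈ P, m x = v} := by rw [hPV]; trivial
  obtain ⟨x, hx, hm⟩ := this
  exact h3 (m y) (Set.mem_univ _) x y hm rfl P hP hx

end Pool.Agent.Helper43.LG
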