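import Pool.Agent.Helper43.LG.Seg

/-!
# Chains of cells

Finitely many cells `D 0, …, D (N - 1)` with bijections `φ j : D j → D (j + 1)` along edges. Ports
are elements of the cells; different ports are at distance at least three. It is shown that the
union of the cells has, for every matching `M` of the ports, a Hamiltonian cycle which runs through
all pairs of `M`.
-/

set_option autoImplicit false

namespace Pool.Agent.Helper43.LG

variable {X : Type*}

/-- the conditions on the cells -/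
structure Cells (R : X → X → Prop) (N : ℕ) (D : ℕ → Set X) (φ : ℕ → X → X)
    (W : ℕ → X → X → Prop) : Prop where
  symm : ∀ x y, R x y → R y x
  disj : ∀ i j, i < N → j < N → ∀ x, x ∈ D i → x ∈ D j → i = j
  cross : ∀ j, j + 1 < N → ∀ x ∈ D j, φ j x ∈ D (j + 1) ∧ R x (φ j x)
  inj : ∀ j, j + 1 < N → ∀ x ∈ D j, ∀ y ∈ D j, φ j x = φ j y → x = y
  surj : ∀ j, j + 1 < N → ∀ y ∈ D (j + 1), ∃ x ∈ D j, φ j x = y
  three : ∀ j < N, ∀ a b, ∃ c ∈ D j, c ≠ a ∧ c ≠ b
  wsymm : ∀ j x y, W j x y → W j y x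
  path : ∀ j < N, ∀ x ∈ D j, ∀ y ∈ D j, x ≠ y → W j x y → ∃ l : List X, l.Nodup ∧
    (∀ z, z ∈ l ↔ z ∈ D j) ∧
    Seg (fun u v => R u v ∧ (j + 1 < N → W (j + 1) (φ j u) (φ j v))) x y l
  double : ∀ j, j + 1 < N → ∀ s ∈ D j, ∀ t ∈ D (j + 1), ∃ l : List X, l.Nodup ∧
    (∀ z, z ∈ l ↔ z ∈ D j ∨ z ∈ D (j + 1)) ∧ Seg R s t l
  start : ∀ j < N, ∀ p ∈ D j, ∃ s ∈ D j, s ≠ p ∧ W j s p ∧ R s p

/-- a Hamiltonian path of the cell `j` along which one can pass to the next cell and back -/
structure GoodL (R : X → X → Prop) (N : ℕ) (D : ℕ → Set X) (φ : ℕ → X → X)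
    (W : ℕ → X → X → Prop) (j : ℕ) (h : List X) : Prop where
  nodup : h.Nodup
  mem : ∀ x, x ∈ h ↔ x ∈ D j
  chain : h.IsChain (fun u v => R u v ∧ (j + 1 < N → W (j + 1) (φ j u) (φ j v)))

/-- `l` is a Hamiltonian cycle of `U` (the last element is joined to the first one) whose steps are
in `R` or pairs of `M`, and which uses all pairs of `M`. -/
structure Cyc (R M : X → X → Prop) (U : Set X) (l : List X) : Prop where
  nodup : l.Nodup
  mem : ∀ x, x ∈ l ↔ x ∈ U
  chain : l.IsChain (fun u v => R u v ∨ M u v)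
  close : ∀ a b, l.head? = some a → l.getLast? = some b → R b a ∨ M b a
  pairs : ∀ u v, M u v → Nb l u v ∨ (l.head? = some u ∧ l.getLast? = some v) ∨
    (l.head? = some v ∧ l.getLast? = some u)

theorem Cyc.rotate {R M : X → X → Prop} {U : Set X} {l1 l2 : List X}
    (h : Cyc R M U (l1 ++ l2)) : Cyc R M U (l2 ++ l1) := by
  by_cases h1 : l1 = []
  · subst h1; simpa using h
  by_cases h2 : l2 = []
  · subst h2; simpa using h
  obtain ⟨a, ha⟩ := exists_head h1
  obtain ⟨x, hx⟩ := exists_last h1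
  obtain ⟨y, hy⟩ := exists_head h2
  obtain ⟨b, hb⟩ := exists_last h2
  have e1 : (l1 ++ l2).head? = some a := by rw [List.head?_append_of_ne_nil _ h1, ha]
  have e2 : (l1 ++ l2).getLast? = some b := by rw [List.getLast?_append_of_ne_nil _ h2, hb]
  have e3 : (l2 ++ l1).head? = some y := by rw [List.head?_append_of_ne_nil _ h2, hy]
  have e4 : (l2 ++ l1).getLast? = some x := by rw [List.getLast?_append_of_ne_nil _ h1, hx]
  obtain ⟨c1, c2, c3⟩ := List.isChain_append.1 h.chain
  refine ⟨?_, ?_, ?_, ?_, ?_⟩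
  · exact (List.perm_append_comm.nodup_iff).1 h.nodup
  · intro z
    rw [← h.mem z, List.mem_append, List.mem_append, or_comm]
  · refine c2.append c1 ?_
    intro u hu v hv
    rw [hb] at hu
    rw [ha] at hv
    simp only [Option.mem_def, Option.some.injEq] at hu hv
    subst hu; subst hv
    exact h.close a b e1 e2
  · intro u v hu hv
    rw [e3] at hu
    rw [e4] at hv
    simp only [Option.some.injEq] at hu hv
    subst hu; subst hv
    exact c3 x hx y hy
  · intro u v huv
    rcases h.pairs u v huv with hn | ⟨h3, h4⟩ | ⟨h3, h4⟩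
    · rcases hn.split with hn | hn | ⟨h3, h4⟩ | ⟨h3, h4⟩
      · exact Or.inl (hn.right _)
      · exact Or.inl (hn.left _)
      · right; right
        rw [e3, e4, ← hy, ← hx]
        exact ⟨h4, h3⟩
      · right; left
        rw [e3, e4, ← hy, ← hx]
        exact ⟨h4, h3⟩
    · left
      rw [List.head?_append_of_ne_nil _ h1] at h3
      rw [List.getLast?_append_of_ne_nil _ h2] at h4
      exact (Nb.junction h4 h3).symm
    · left
      rw [List.head?_append_of_ne_nil _ h1] at h3
      rw [List.getLast?_append_of_ne_nil _ h2] at h4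
      exact Nb.junction h4 h3

theorem Cyc.reverse {R M : X → X → Prop} {U : Set X} {l : List X} (hR : ∀ x y, R x y → R y x)
    (hM : ∀ x y, M x y → M y x) (h : Cyc R M U l) : Cyc R M U l.reverse := by
  have hQ : ∀ x y, (R x y ∨ M x y) → (R y x ∨ M y x) := by
    rintro x y (h | h)
    · exact Or.inl (hR _ _ h)
    · exact Or.inr (hM _ _ h)
  refine ⟨List.nodup_reverse.2 h.nodup, ?_, ?_, ?_, ?_⟩
  · intro z
    rw [List.mem_reverse, h.mem z]
  · rw [List.isChain_reverse]
    exact h.chain.imp fun x y hxy => hQ x y hxy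
  · intro a b ha hb
    rw [List.head?_reverse] at ha
    rw [List.getLast?_reverse] at hb
    exact hQ _ _ (h.close b a hb ha)
  · intro u v huv
    rw [List.head?_reverse, List.getLast?_reverse]
    rcases h.pairs u v huv with hn | h1 | h1
    · exact Or.inl hn.rev
    · exact Or.inr (Or.inr ⟨h1.2, h1.1⟩)
    · exact Or.inr (Or.inl ⟨h1.2, h1.1⟩)

theorem GoodL.reverse {R : X → X → Prop} {N : ℕ} {D : ℕ → Set X} {φ : ℕ → X → X}
    {W : ℕ → X → X → Prop} (hc : Cells R N D φ W) {j : ℕ} {h : List X}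
    (hh : GoodL R N D φ W j h) : GoodL R N D φ W j h.reverse := by
  refine ⟨List.nodup_reverse.2 hh.nodup, ?_, ?_⟩
  · intro z
    rw [List.mem_reverse, hh.mem z]
  · rw [List.isChain_reverse]
    exact hh.chain.imp fun x y hxy =>
      ⟨hc.symm _ _ hxy.1, fun hj => hc.wsymm _ _ _ (hxy.2 hj)⟩

/-- bringing a pair to the end -/
theorem Cyc.norm {R M : X → X → Prop} {U : Set X} {h rest : List X}
    (hR : ∀ x y, R x y → R y x) (hM : ∀ x y, M x y → M y x) (hc : Cyc R M U (h ++ rest))
    {q r : X} (hqr : M q r) (hn : ¬ (q ∈ h ∧ r ∈ h)) :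
    ∃ α h' β, (h' = h ∨ h' = h.reverse) ∧ Cyc R M U (α ++ h' ++ β) ∧
      (α ++ h' ++ β).head? = some q ∧ (α ++ h' ++ β).getLast? = some r := by
  -- it suffices to find it with the ends in one of the two orders
  suffices hs : ∃ α β u v, ((u = q ∧ v = r) ∨ (u = r ∧ v = q)) ∧ Cyc R M U (α ++ h ++ β) ∧
      (α ++ h ++ β).head? = some u ∧ (α ++ h ++ β).getLast? = some v by
    obtain ⟨α, β, u, v, huv, h1, h2, h3⟩ := hs
    rcases huv with ⟨rfl, rfl⟩ | ⟨rfl, rfl⟩
    · exact ⟨α, h, β, Or.inl rfl, h1, h2, h3⟩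
    · have e : (α ++ h ++ β).reverse = β.reverse ++ h.reverse ++ α.reverse := by simp
      refine ⟨β.reverse, h.reverse, α.reverse, Or.inr rfl, ?_, ?_, ?_⟩
      · rw [← e]
        exact h1.reverse hR hM
      · rw [← e, List.head?_reverse, h3]
      · rw [← e, List.getLast?_reverse, h2]
  -- one of the two orders, as neighbours
  have key : ∀ u v, ((u = q ∧ v = r) ∨ (u = r ∧ v = q)) → [u, v] <:+: h ++ rest →
      ∃ α β u v, ((u = q ∧ v = r) ∨ (u = r ∧ v = q)) ∧ Cyc R M U (α ++ h ++ β) ∧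
      (α ++ h ++ β).head? = some u ∧ (α ++ h ++ β).getLast? = some v := by
    intro u v huv hin
    have huv' : (v = q ∧ u = r) ∨ (v = r ∧ u = q) := by
      rcases huv with h1 | h1
      · exact Or.inr ⟨h1.2, h1.1⟩
      · exact Or.inl ⟨h1.2, h1.1⟩
    rcases infix_split hin with h1 | h1 | ⟨h1, h2⟩
    · exfalso
      apply hn
      have hu : u ∈ h := h1.subset (by simp)
      have hv : v ∈ h := h1.subset (by simp)
      rcases huv with ⟨rfl, rfl⟩ | ⟨rfl, rfl⟩
      · exact ⟨hu, hv⟩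
      · exact ⟨hv, hu⟩
    · obtain ⟨s, t, hst⟩ := h1
      have e : h ++ rest = (h ++ (s ++ [u])) ++ (v :: t) := by
        rw [← hst]; simp
      rw [e] at hc
      have e2 : (v :: t) ++ (h ++ (s ++ [u])) = (v :: t) ++ h ++ (s ++ [u]) := by simp
      have h2 := hc.rotate
      rw [e2] at h2
      exact ⟨v :: t, s ++ [u], v, u, huv', h2, by simp, by
        rw [List.getLast?_append_of_ne_nil _ (by simp)]; simp⟩
    · have h3 := hc.rotate
      have e2 : rest ++ h = rest ++ h ++ [] := by simp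
      rw [e2] at h3
      refine ⟨rest, [], v, u, huv', h3, ?_, ?_⟩
      · rw [← e2, List.head?_append, h2]; rfl
      · rw [← e2, List.getLast?_append, h1]; rfl
  rcases hc.pairs q r hqr with (h1 | h1) | ⟨h1, h2⟩ | ⟨h1, h2⟩
  · exact key q r (Or.inl ⟨rfl, rfl⟩) h1
  · exact key r q (Or.inr ⟨rfl, rfl⟩) h1
  · exact ⟨[], rest, q, r, Or.inl ⟨rfl, rfl⟩, by simpa using hc, by simpa using h1,
      by simpa using h2⟩
  · exact ⟨[], rest, r, q, Or.inr ⟨rfl, rfl⟩, by simpa using hc, by simpa using h1,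
      by simpa using h2⟩

section

variable {R : X → X → Prop} {N : ℕ} {D : ℕ → Set X} {φ : ℕ → X → X} {W : ℕ → X → X → Prop}

/-- cutting a good path, not behind a given element -/
theorem GoodL.cut (hc : Cells R N D φ W) {j : ℕ} (hj : j < N) {h : List X}
    (hh : GoodL R N D φ W j h) (v : X) :
    ∃ h1 h2 x y, h = h1 ++ h2 ∧ h1.getLast? = some x ∧ h2.head? = some y ∧ x ≠ v ∧
      x ∈ D j ∧ y ∈ D j ∧ x ≠ y ∧ R x y ∧ (j + 1 < N → W (j + 1) (φ j x) (φ j y)) := by
  have key : ∀ h1 h2 x y, h = h1 ++ h2 → h1.getLast? = some x → h2.head? = some y →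
      x ∈ D j ∧ y ∈ D j ∧ x ≠ y ∧ R x y ∧ (j + 1 < N → W (j + 1) (φ j x) (φ j y)) := by
    intro h1 h2 x y e hx hy
    have c := hh.chain
    have nd := hh.nodup
    rw [e] at c nd
    have hx' : x ∈ h1 := List.mem_of_mem_getLast? hx
    have hy' : y ∈ h2 := List.mem_of_mem_head? hy
    refine ⟨(hh.mem x).1 (by rw [e]; exact List.mem_append_left _ hx'),
      (hh.mem y).1 (by rw [e]; exact List.mem_append_right _ hy'), ?_,
      (List.isChain_append.1 c).2.2 x hx y hy⟩
    rintro rfl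
    exact List.disjoint_of_nodup_append nd hx' hy'
  match h, hh, key with
  | [], hh, _ =>
    obtain ⟨c, hc1, -, -⟩ := hc.three j hj v v
    exact absurd ((hh.mem c).2 hc1) (by simp)
  | [a], hh, _ =>
    obtain ⟨c, hc1, hc2, -⟩ := hc.three j hj a a
    exact absurd (List.mem_singleton.1 ((hh.mem c).2 hc1)) hc2
  | [a, b], hh, _ =>
    obtain ⟨c, hc1, hc2, hc3⟩ := hc.three j hj a b
    have := (hh.mem c).2 hc1
    simp only [List.mem_cons, List.not_mem_nil, or_false] at this
    rcases this with h | h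
    · exact absurd h hc2
    · exact absurd h hc3
  | a :: b :: c :: t, hh, key =>
    by_cases ha : a = v
    · have hb : b ≠ v := by
        rw [← ha]
        have := hh.nodup
        simp only [List.nodup_cons, List.mem_cons, not_or] at this
        exact Ne.symm this.1.1
      exact ⟨[a, b], c :: t, b, c, rfl, rfl, rfl, hb, key [a, b] (c :: t) b c rfl rfl rfl⟩
    · exact ⟨[a], b :: c :: t, a, b, rfl, rfl, rfl, ha, key [a] (b :: c :: t) a b rfl rfl rfl⟩

end

end Pool.Agent.Helper43.LG
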