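import Pool.Graph.R_pool_sql_team_seeded_620a6dc7.Helper718_cayley.I
import Pool.Graph.R_pool_sql_team_seeded_620a6dc7.Helper718_cayley.D

/-!
# Links whose ends lie in separated cosets of a small subgroup

`L` is a subgroup with `80 |L| ≤ |H|` and `π` a permutation of the left cosets of `L`. There is a
connected even set of links `x — x c` between the left cosets of `H` such that for different links
the cosets of `L` which contain their ends are not among the next two (with respect to `π`) of each
other.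
-/

set_option autoImplicit false

namespace Pool.Agent.Helper43.LG

open Finset Module Pool.Agent.H718C

variable {G : Type*} [Group G] [Fintype G] [DecidableEq G] {L : Subgroup G}
  [DecidableEq (G ⧸ L)]

/-- the coset of `x` and the next two -/
def win (π : Equiv.Perm (G ⧸ L)) (x : G) : Finset (G ⧸ L) :=
  {(x : G ⧸ L), π (x : G ⧸ L), π (π (x : G ⧸ L))}

/-- the windows of both ends of a link -/
def S3 (π : Equiv.Perm (G ⧸ L)) {C : Finset G} (q : G × C) : Finset (G ⧸ L) :=
  win π q.1 ∪ win π (q.1 * q.2)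

/-- the cosets at distance at most two -/
def win5 (π : Equiv.Perm (G ⧸ L)) (x : G) : Finset (G ⧸ L) :=
  {(x : G ⧸ L), π (x : G ⧸ L), π (π (x : G ⧸ L)), π.symm (x : G ⧸ L), π.symm (π.symm (x : G ⧸ L))}

def M5 (π : Equiv.Perm (G ⧸ L)) {C : Finset G} (q : G × C) : Finset (G ⧸ L) :=
  win5 π q.1 ∪ win5 π (q.1 * q.2)

omit [Fintype G] [DecidableEq G] in
theorem card_M5 (π : Equiv.Perm (G ⧸ L)) {C : Finset G} (q : G × C) : (M5 π q).card ≤ 10 :=
  (card_union_le _ _).trans (Nat.add_le_add card_le_five card_le_five)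

omit [Fintype G] [DecidableEq G] in
theorem win_meet (π : Equiv.Perm (G ⧸ L)) {x y : G} (h : ¬ Disjoint (win π x) (win π y)) :
    (x : G ⧸ L) ∈ win5 π y := by
  rw [not_disjoint_iff] at h
  obtain ⟨z, hx, hy⟩ := h
  simp only [win, mem_insert, mem_singleton] at hx hy
  simp only [win5, mem_insert, mem_singleton]
  rcases hx with h1 | h1 | h1 <;> rcases hy with h2 | h2 | h2
  · left; rw [← h1, h2]
  · right; left; rw [← h1, h2]
  · right; right; left; rw [← h1, h2]
  · right; right; right; left; rw [← h2, h1, Equiv.symm_apply_apply]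
  · left; exact π.injective (by rw [← h1, h2])
  · right; left; exact π.injective (by rw [← h1, h2])
  · right; right; right; right; rw [← h2, h1, Equiv.symm_apply_apply, Equiv.symm_apply_apply]
  · right; right; right; left
    rw [Equiv.eq_symm_apply]
    exact π.injective (by rw [← h1, h2])
  · left; exact π.injective (π.injective (by rw [← h1, h2]))

omit [Fintype G] [DecidableEq G] in
theorem S3_meet (π : Equiv.Perm (G ⧸ L)) {C : Finset G} {a q : G × C}
    (h : ¬ Disjoint (S3 π a) (S3 π q)) :
    (a.1 : G ⧸ L) ∈ M5 π q ∨ ((a.1 * a.2 : G) : G ⧸ L) ∈ M5 π q := by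
  unfold S3 at h
  rw [disjoint_union_left, disjoint_union_right, disjoint_union_right] at h
  unfold M5
  rw [mem_union, mem_union]
  by_contra hn
  push Not at hn
  apply h
  refine ⟨⟨?_, ?_⟩, ?_, ?_⟩
  · by_contra h1; exact hn.1.1 (win_meet π h1)
  · by_contra h1; exact hn.1.2 (win_meet π h1)
  · by_contra h1; exact hn.2.1 (win_meet π h1)
  · by_contra h1; exact hn.2.2 (win_meet π h1)

/-- the number of elements in a set of cosets -/
theorem card_cosets (U : Finset (G ⧸ L)) :
    (univ.filter (fun x : G => (x : G ⧸ L) ∈ U)).card ≤ U.card * Nat.card L := by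
  classical
  have h1 : ∀ v ∈ U, (univ.filter (fun x : G => (x : G ⧸ L) = v)).card ≤ Nat.card L := by
    intro v _
    obtain ⟨g, rfl⟩ := QuotientGroup.mk_surjective v
    have h2 : (univ.filter (fun x : G => (x : G ⧸ L) = (g : G ⧸ L))) ⊆
        (Set.toFinset (Set.range (fun l : L => g * (l : G)))) := by
      intro x hx
      rw [mem_filter] at hx
      rw [Set.mem_toFinset]
      refine ⟨⟨g⁻¹ * x, QuotientGroup.eq.1 hx.2.symm⟩, ?_⟩
      simp
    refine (card_le_card h2).trans ?_
    rw [← Set.ncard_eq_toFinset_card']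
    have h3 : (Set.range (fun l : L => g * (l : G))).ncard ≤ (Set.univ : Set L).ncard := by
      rw [← Set.image_univ]
      exact Set.ncard_image_le (Set.toFinite _)
    rwa [Set.ncard_univ] at h3
  have h2 : (univ.filter (fun x : G => (x : G ⧸ L) ∈ U)) ⊆
      U.biUnion (fun v => univ.filter (fun x : G => (x : G ⧸ L) = v)) := by
    intro x hx
    rw [mem_filter] at hx
    exact mem_biUnion.2 ⟨_, hx.2, mem_filter.2 ⟨mem_univ _, rfl⟩⟩
  exact (card_le_card h2).trans (card_biUnion_le_card_mul _ _ _ h1)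

theorem card_blocked3 (π : Equiv.Perm (G ⧸ L)) {C : Finset G} (z0 : G × C)
    (B : Finset (G × C)) (hB : B.Nonempty) :
    Set.ncard {a : G × C | ¬ Disjoint (S3 π a) (S3 π z0 ∪ B.biUnion (S3 π))} ≤
      40 * C.card * Nat.card L * B.card := by
  classical
  set U := M5 π z0 ∪ B.biUnion (M5 π) with hU
  have h1 : {a : G × C | ¬ Disjoint (S3 π a) (S3 π z0 ∪ B.biUnion (S3 π))} ⊆
      ((((univ.filter (fun x : G => (x : G ⧸ L) ∈ U)) ×ˢ (univ : Finset C)).image
          (fun p => (p.1, p.2)) ∪
        ((univ.filter (fun x : G => (x : G ⧸ L) ∈ U)) ×ˢ (univ : Finset C)).image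
          (fun p => (p.1 * (p.2 : G)⁻¹, p.2)) : Finset (G × C)) : Set (G × C)) := by
    intro a ha
    simp only [Set.mem_ofPred_eq] at ha
    have h2 : (a.1 : G ⧸ L) ∈ U ∨ ((a.1 * a.2 : G) : G ⧸ L) ∈ U := by
      rw [disjoint_union_right, not_and_or] at ha
      rcases ha with ha | ha
      · rcases S3_meet π ha with h | h
        · exact Or.inl (mem_union_left _ h)
        · exact Or.inr (mem_union_left _ h)
      · rw [disjoint_biUnion_right] at ha
        push Not at ha
        obtain ⟨b, hb, hab⟩ := ha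
        rcases S3_meet π hab with h | h
        · exact Or.inl (mem_union_right _ (mem_biUnion.2 ⟨b, hb, h⟩))
        · exact Or.inr (mem_union_right _ (mem_biUnion.2 ⟨b, hb, h⟩))
    rw [mem_coe, mem_union, mem_image, mem_image]
    rcases h2 with h | h
    · exact Or.inl ⟨(a.1, a.2), mem_product.2 ⟨mem_filter.2 ⟨mem_univ _, h⟩, mem_univ _⟩, rfl⟩
    · refine Or.inr ⟨(a.1 * a.2, a.2), mem_product.2 ⟨mem_filter.2 ⟨mem_univ _, h⟩, mem_univ _⟩, ?_⟩
      simp
  refine (Set.ncard_le_ncard h1 (Set.toFinite _)).trans ?_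
  rw [Set.ncard_coe_finset]
  refine (card_union_le _ _).trans ?_
  refine (Nat.add_le_add card_image_le card_image_le).trans ?_
  rw [card_product, card_univ, Fintype.card_coe]
  have h3 : U.card ≤ 20 * B.card := by
    have e1 : (B.biUnion (M5 π)).card ≤ B.card * 10 :=
      card_biUnion_le_card_mul _ _ _ (fun b _ => card_M5 π b)
    have e2 := card_M5 π z0
    have e3 := card_pos.2 hB
    rw [hU]
    refine (card_union_le _ _).trans ?_
    omega
  have h4 := card_cosets U
  have h5 : (univ.filter (fun x : G => (x : G ⧸ L) ∈ U)).card ≤ 20 * B.card * Nat.card L :=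
    h4.trans (Nat.mul_le_mul_right _ h3)
  calc _ = 2 * ((univ.filter (fun x : G => (x : G ⧸ L) ∈ U)).card * C.card) := by ring
    _ ≤ 2 * (20 * B.card * Nat.card L * C.card) :=
        Nat.mul_le_mul_left _ (Nat.mul_le_mul_right _ h5)
    _ = 40 * C.card * Nat.card L * B.card := by ring

/-- **The set of links.** -/
theorem exists_links_win (A : Set G) (hgen : Subgroup.closure A = ⊤) (H : Subgroup G)
    [Fintype (G ⧸ H)] [DecidableEq (G ⧸ H)] (h80 : 80 * Nat.card L ≤ Nat.card H)
    (π : Equiv.Perm (G ⧸ L)) :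
    ∃ (C : Finset G), (C : Set G) ⊆ A ∧ (∀ c ∈ C, c ∉ H) ∧ ∃ (F : Finset (G × C)),
      (∀ q ∈ F, ∀ q' ∈ F, q ≠ q' → Disjoint (S3 π q) (S3 π q')) ∧
      ∑ q ∈ F, vec (sv H C) (tv H C) q = 0 ∧
      ∀ P : Set (G ⧸ H), (∀ q ∈ F, sv H C q ∈ P ↔ tv H C q ∈ P) → P.Nonempty → P = Set.univ := by
  classical
  obtain ⟨C, hCA, hCgen, hCH, hC⟩ := exists_irred H A hgen
  refine ⟨C, hCA, hCH, ?_⟩
  rcases Nat.eq_zero_or_pos C.card with h0 | h0
  · refine ⟨∅, by simp, by simp, fun P _ hne => conn_of_gen H C hCgen P ?_ hne⟩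
    rintro ⟨x, c, hc⟩
    rw [card_eq_zero] at h0
    rw [h0] at hc
    simp at hc
  · have hL : 0 < Nat.card L := Nat.card_pos
    obtain ⟨F, hF1, hF2, hF3, -⟩ := two_trees (sv H C) (tv H C) (fun q : G × C => q)
      (S3 π) (40 * C.card * Nat.card L) (by positivity)
      (fun a => ⟨(a.1 : G ⧸ L), by simp [S3, win]⟩) (by
        intro U hU
        have h1 := cut_ineq H C (80 * C.card * Nat.card L) (by
          intro S hHS hS
          refine le_trans ?_ (hC S hHS hS)
          calc 80 * C.card * Nat.card L = C.card * (80 * Nat.card L) := by ring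
            _ ≤ _ := Nat.mul_le_mul_left _ h80) U hU
        have h2 : {a : G × C | ∃ q, q = a ∧ vec (sv H C) (tv H C) q ∉ U} =
            {q : G × C | vec (sv H C) (tv H C) q ∉ U} := by
          ext a
          simp
        rw [h2, show 2 * (40 * C.card * Nat.card L) = 80 * C.card * Nat.card L by ring]
        exact h1) (by
        intro z0 B hB _ _
        exact card_blocked3 π z0 B hB)
    refine ⟨F, hF1, hF2, fun P hP hne => conn_of_gen H C hCgen P ?_ hne⟩
    exact cut_of_span _ _ F hF3 P hP

end Pool.Agent.Helper43.LG
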