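import Pool.Agent.Helper43.LG.Star
import Pool.Agent.Helper43.LG.Links

/-!
# Chains of cosets in a group
-/

set_option autoImplicit false

namespace Pool.Agent.Helper43.LG

open Equiv Finset Pool.Agent.H718C

variable {G : Type*} [Group G]

/-- the cell `g w_j L` -/
def Dc (L : Subgroup G) (w : ℕ → G) (g : G) (j : ℕ) : Set G := {x | (g * w j)⁻¹ * x ∈ L}

/-- the step from one cell to the next -/
def phi (w : ℕ → G) (j : ℕ) (x : G) : G := x * ((w j)⁻¹ * w (j + 1))

/-- `w 0, …, w (N - 1)` represent the left cosets of `L` in `H`. -/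
structure Reps (L H : Subgroup G) (N : ℕ) (w : ℕ → G) : Prop where
  mem : ∀ i < N, w i ∈ H
  all : ∀ h ∈ H, ∃ i < N, (w i)⁻¹ * h ∈ L
  inj : ∀ i j, i < N → j < N → (w i)⁻¹ * w j ∈ L → i = j

/-- the cells with base `g` fill the coset `g H` -/
theorem Un_cells {L H : Subgroup G} (hLH : L ≤ H) {N : ℕ} {w : ℕ → G} (hw : Reps L H N w)
    (hN : 0 < N) (g x : G) : x ∈ Un (Dc L w g) (N - 1) ↔ g⁻¹ * x ∈ H := by
  constructor
  · rintro ⟨j, hj, hx⟩
    have h1 : (g * w j)⁻¹ * x ∈ L := hx
    have h2 : g⁻¹ * x = w j * ((g * w j)⁻¹ * x) := by group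
    rw [h2]
    exact H.mul_mem (hw.mem j (by omega)) (hLH h1)
  · intro h
    obtain ⟨i, hi, h1⟩ := hw.all _ h
    refine ⟨i, by omega, ?_⟩
    change (g * w i)⁻¹ * x ∈ L
    rw [mul_inv_rev, mul_assoc]
    exact h1

theorem card_le_of_reps [Finite G] {L H : Subgroup G} (hLH : L ≤ H) {N : ℕ} {w : ℕ → G}
    (hw : Reps L H N w) : N * Nat.card L ≤ Nat.card H := by
  classical
  let f : Fin N × L → H := fun p => ⟨w p.1 * p.2, H.mul_mem (hw.mem _ p.1.2) (hLH p.2.2)⟩
  have hf : Function.Injective f := by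
    rintro ⟨i, l⟩ ⟨j, l'⟩ h
    have h1 : w i * (l : G) = w j * (l' : G) := congrArg Subtype.val h
    have h2 : (w i)⁻¹ * w j = (l : G) * (l' : G)⁻¹ := by
      rw [eq_mul_inv_iff_mul_eq, mul_assoc, ← h1]
      group
    have h3 : i = j := Fin.ext (hw.inj i j i.2 j.2 (by
      rw [h2]; exact L.mul_mem l.2 (L.inv_mem l'.2)))
    subst h3
    have h4 : (l : G) = l' := mul_left_cancel h1
    exact Prod.ext rfl (Subtype.ext h4)
  have := Nat.card_le_card_of_injective f hf
  rwa [Nat.card_prod, Nat.card_eq_fintype_card (α := Fin N), Fintype.card_fin] at this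

/-- the cyclic shift of the cells -/
theorem exists_shift [Finite G] {L H : Subgroup G} (hLH : L ≤ H) {N : ℕ} {w : ℕ → G}
    (hw : Reps L H N w) (hN : 0 < N) :
    ∃ π : Perm (G ⧸ L), ∀ (x : G) (j : ℕ), j + 1 < N → x ∈ Dc L w ((x : G ⧸ H).out) j →
      π (x : G ⧸ L) = (((x : G ⧸ H).out * w (j + 1) : G) : G ⧸ L) := by
  classical
  have hout : ∀ x : G, ((x : G ⧸ H).out)⁻¹ * x ∈ H := by
    intro x
    rw [← QuotientGroup.eq]
    exact QuotientGroup.out_eq' _
  have hex : ∀ x : G, ∃ i, i < N ∧ x ∈ Dc L w ((x : G ⧸ H).out) i := by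
    intro x
    obtain ⟨i, hi, h⟩ := hw.all _ (hout x)
    refine ⟨i, hi, ?_⟩
    change ((x : G ⧸ H).out * w i)⁻¹ * x ∈ L
    rw [mul_inv_rev, mul_assoc]
    exact h
  choose idx idx1 idx2 using hex
  have huniq : ∀ (g x : G) (i j : ℕ), i < N → j < N → x ∈ Dc L w g i → x ∈ Dc L w g j → i = j := by
    intro g x i j hi hj h1 h2
    apply hw.inj i j hi hj
    have e : (w i)⁻¹ * w j = ((g * w i)⁻¹ * x) * ((g * w j)⁻¹ * x)⁻¹ := by group
    rw [e]
    exact L.mul_mem h1 (L.inv_mem h2)
  -- representatives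
  have hrep : ∀ x : G, (((x : G ⧸ L).out : G) : G ⧸ H) = (x : G ⧸ H) ∧
      ∀ g i, x ∈ Dc L w g i → ((x : G ⧸ L).out : G) ∈ Dc L w g i := by
    intro x
    have h1 : ((x : G ⧸ L).out)⁻¹ * x ∈ L := by
      rw [← QuotientGroup.eq]
      exact QuotientGroup.out_eq' _
    refine ⟨QuotientGroup.eq.2 (hLH h1), fun g i hx => ?_⟩
    change (g * w i)⁻¹ * (x : G ⧸ L).out ∈ L
    have e : (g * w i)⁻¹ * (x : G ⧸ L).out = ((g * w i)⁻¹ * x) * (((x : G ⧸ L).out)⁻¹ * x)⁻¹ := by
      group
    rw [e]
    exact L.mul_mem hx (L.inv_mem h1)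
  let f : G ⧸ L → G ⧸ L := fun y =>
    (((y.out : G) : G ⧸ H).out * w ((idx y.out + 1) % N) : G)
  have hf : ∀ (x : G) (j : ℕ), j < N → x ∈ Dc L w ((x : G ⧸ H).out) j →
      f (x : G ⧸ L) = (((x : G ⧸ H).out * w ((j + 1) % N) : G) : G ⧸ L) := by
    intro x j hj hx
    obtain ⟨h1, h2⟩ := hrep x
    have h3 : idx ((x : G ⧸ L).out) = j := by
      refine huniq _ _ _ _ (idx1 _) hj (idx2 _) ?_
      rw [h1]
      exact h2 _ _ hx
    change ((((((x : G ⧸ L).out : G) : G ⧸ H).out * w ((idx (x : G ⧸ L).out + 1) % N) : G)) :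
      G ⧸ L) = _
    rw [h3, h1]
  have hinj : Function.Injective f := by
    intro y y' h
    obtain ⟨x, rfl⟩ := QuotientGroup.mk_surjective y
    obtain ⟨x', rfl⟩ := QuotientGroup.mk_surjective y'
    rw [hf x (idx x) (idx1 x) (idx2 x), hf x' (idx x') (idx1 x') (idx2 x'),
      QuotientGroup.eq] at h
    set g := (x : G ⧸ H).out with hg
    set g' := (x' : G ⧸ H).out with hg'
    set i := (idx x + 1) % N with hi
    set i' := (idx x' + 1) % N with hi'
    have hiN : i < N := Nat.mod_lt _ hN
    have hiN' : i' < N := Nat.mod_lt _ hN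
    have h4 : g⁻¹ * g' ∈ H := by
      have e : g⁻¹ * g' = w i * ((g * w i)⁻¹ * (g' * w i')) * (w i')⁻¹ := by group
      rw [e]
      exact H.mul_mem (H.mul_mem (hw.mem i hiN) (hLH h)) (H.inv_mem (hw.mem i' hiN'))
    have h5 : (x : G ⧸ H) = (x' : G ⧸ H) := by
      have a1 : (g : G ⧸ H) = (x : G ⧸ H) := QuotientGroup.out_eq' _
      have a2 : (g' : G ⧸ H) = (x' : G ⧸ H) := QuotientGroup.out_eq' _
      rw [← a1, ← a2]
      exact QuotientGroup.eq.2 h4
    have h6 : g = g' := by rw [hg, hg', h5]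
    rw [← h6] at h
    have h7 : i = i' := by
      apply hw.inj i i' hiN hiN'
      have e : (w i)⁻¹ * w i' = (g * w i)⁻¹ * (g * w i') := by group
      rw [e]
      exact h
    have h8 : idx x = idx x' := by
      have b1 := idx1 x
      have b2 := idx1 x'
      have b3 : (idx x + 1) ≡ (idx x' + 1) [MOD N] := h7
      have b4 : idx x ≡ idx x' [MOD N] := Nat.ModEq.add_right_cancel' 1 b3
      have b5 : idx x % N = idx x' % N := b4
      rwa [Nat.mod_eq_of_lt b1, Nat.mod_eq_of_lt b2] at b5
    rw [QuotientGroup.eq]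
    have c1 : (g * w (idx x))⁻¹ * x ∈ L := idx2 x
    have c2 : (g * w (idx x))⁻¹ * x' ∈ L := by
      have := idx2 x'
      rw [← h8] at this
      change (g' * w (idx x))⁻¹ * x' ∈ L at this
      rwa [← h6] at this
    have e : x⁻¹ * x' = ((g * w (idx x))⁻¹ * x)⁻¹ * ((g * w (idx x))⁻¹ * x') := by group
    rw [e]
    exact L.mul_mem (L.inv_mem c1) c2
  refine ⟨Equiv.ofBijective f (Finite.injective_iff_bijective.1 hinj), ?_⟩
  intro x j hj hx
  have := hf x j (by omega) hx
  rw [Nat.mod_eq_of_lt hj] at this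
  exact this

/-- **Chains of cosets.** -/
theorem group_main [Finite G] (A : Set G) (hA : ∀ x ∈ A, x⁻¹ ∈ A)
    (hgen : Subgroup.closure A = ⊤) {L H : Subgroup G} (hLH : L ≤ H) {N : ℕ} {w : ℕ → G}
    (hw : Reps L H N w) (h80 : 80 ≤ N) (h3 : 3 ≤ Nat.card L) (W : ℕ → G → G → Prop)
    (hcells : ∀ g, Cells (fun x y => x⁻¹ * y ∈ A) N (Dc L w g) (phi w) W) :
    ∃ σ : Perm G, (∀ x, x⁻¹ * σ x ∈ A) ∧ ∀ x y, σ.SameCycle x y := by
  classical
  have : Fintype G := Fintype.ofFinite G
  have : Fintype (G ⧸ H) := Fintype.ofFinite _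
  have hN : 0 < N := by omega
  have h80' : 80 * Nat.card L ≤ Nat.card H :=
    (Nat.mul_le_mul_right _ h80).trans (card_le_of_reps hLH hw)
  obtain ⟨π, hπ⟩ := exists_shift hLH hw hN
  obtain ⟨C, hCA, hCH, F, hF1, hF2, hF3⟩ := exists_links_win A hgen H h80' π
  let el : F × Bool → G := fun y => if y.2 then (y.1 : G × C).1 * (y.1 : G × C).2 else
    (y.1 : G × C).1
  have elf : ∀ q : F, el (q, false) = (q : G × C).1 := fun q => rfl
  have elt : ∀ q : F, el (q, true) = (q : G × C).1 * (q : G × C).2 := fun q => rfl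
  have hat : ∀ y : F × Bool, ((el y : G) : G ⧸ H) =
      (if y.2 then tv H C (y.1 : G × C) else sv H C (y.1 : G × C)) := by
    rintro ⟨q, β⟩
    cases β <;> rfl
  have hends : ∀ q : F, ((el (q, false) : G) : G ⧸ H) ≠ ((el (q, true) : G) : G ⧸ H) := by
    intro q h
    rw [elf, elt, QuotientGroup.eq, inv_mul_cancel_left] at h
    exact hCH _ (q : G × C).2.2 h
  -- windows of the ends
  have hwin : ∀ y : F × Bool, win π (el y) ⊆ S3 π (y.1 : G × C) := by
    rintro ⟨q, β⟩
    cases β
    · exact subset_union_left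
    · exact subset_union_right
  have hdis : ∀ y y' : F × Bool, y.1 ≠ y'.1 → Disjoint (win π (el y)) (win π (el y')) := by
    intro y y' h
    have := hF1 _ y.1.2 _ y'.1.2 (fun e => h (Subtype.ext e))
    exact (this.mono_left (hwin y)).mono_right (hwin y')
  have hinj : Function.Injective el := by
    rintro ⟨q, β⟩ ⟨q', β'⟩ h
    by_cases hq : q = q'
    · subst hq
      cases β <;> cases β'
      · rfl
      · exact absurd (congrArg (fun z : G => (z : G ⧸ H)) h) (hends q)
      · exact absurd (congrArg (fun z : G => (z : G ⧸ H)) h).symm (hends q)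
      · rfl
    · exfalso
      have := hdis (q, β) (q', β') hq
      rw [h, disjoint_self_iff_empty] at this
      have h0 : ((el (q', β') : G) : G ⧸ L) ∈ win π (el (q', β')) := by simp [win]
      rw [this] at h0
      simp at h0
  let T : Set G := Set.range el
  let fl : F × Bool → F × Bool := fun y => (y.1, !y.2)
  have hflfl : ∀ y, fl (fl y) = y := by
    rintro ⟨q, β⟩
    simp [fl]
  have hfl : ∀ y, fl y ≠ y := by
    rintro ⟨q, β⟩ h
    have := congrArg Prod.snd h
    simp [fl] at this
  let μ : G → G := fun x => if h : ∃ y, el y = x then el (fl h.choose) else x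
  have hμ0 : ∀ y, μ (el y) = el (fl y) := by
    intro y
    have h : ∃ y', el y' = el y := ⟨y, rfl⟩
    have h1 : μ (el y) = el (fl h.choose) := dif_pos h
    rw [h1, hinj h.choose_spec]
  have hμ : ∀ p ∈ T, μ p ∈ T ∧ μ (μ p) = p ∧ μ p ≠ p ∧ p⁻¹ * μ p ∈ A := by
    rintro _ ⟨y, rfl⟩
    rw [hμ0]
    refine ⟨⟨_, rfl⟩, by rw [hμ0, hflfl], fun h => hfl y (hinj h), ?_⟩
    rcases y with ⟨q, β⟩
    cases β
    · change (el (q, false))⁻¹ * el (q, true) ∈ A
      rw [elf, elt, inv_mul_cancel_left]
      exact hCA (q : G × C).2.2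
    · change (el (q, true))⁻¹ * el (q, false) ∈ A
      rw [elf, elt]
      have e : ((q : G × C).1 * ((q : G × C).2 : G))⁻¹ * (q : G × C).1 =
        (((q : G × C).2 : G))⁻¹ := by group
      rw [e]
      exact hA _ (hCA (q : G × C).2.2)
  refine assemble (fun x : G => (x : G ⧸ H)) (fun x y => x⁻¹ * y ∈ A) ?_ T μ hμ ?_ ?_ ?_
  · intro x y h
    have := hA _ h
    rwa [mul_inv_rev, inv_inv] at this
  · -- the covering property
    intro v
    set g := v.out with hg
    have hgv : (g : G ⧸ H) = v := QuotientGroup.out_eq' _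
    have hpart : ∀ x : G, x ∈ Un (Dc L w g) (N - 1) ↔ (x : G ⧸ H) = v := by
      intro x
      rw [Un_cells hLH hw hN g x, ← QuotientGroup.eq, hgv]
      exact eq_comm
    have hsep : Sep N (Dc L w g) T := by
      -- one direction suffices
      have key : ∀ i j, i ≤ j → j < i + 3 → i < N → j < N → ∀ p ∈ T, ∀ q ∈ T, p ∈ Dc L w g i →
          q ∈ Dc L w g j → p = q := by
        intro i j hij hij' hi hj p hp q hq hpD hqD
        obtain ⟨y, rfl⟩ := hp
        obtain ⟨y', rfl⟩ := hq
        have hpv : ((el y : G) : G ⧸ H) = v := (hpart _).1 ⟨i, by omega, hpD⟩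
        have hqv : ((el y' : G) : G ⧸ H) = v := (hpart _).1 ⟨j, by omega, hqD⟩
        by_cases hyy : y.1 = y'.1
        · rcases y with ⟨q1, β⟩
          rcases y' with ⟨q2, β'⟩
          have hq12 : q1 = q2 := hyy
          subst hq12
          cases β <;> cases β'
          · rfl
          · exact absurd (hpv.trans hqv.symm) (hends q1)
          · exact absurd (hqv.trans hpv.symm) (hends q1)
          · rfl
        · exfalso
          have hd := hdis y y' hyy
          -- the cells
          have hcell : ∀ (x : G) (a : ℕ), x ∈ Dc L w g a → (x : G ⧸ L) = ((g * w a : G) : G ⧸ L) :=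
            fun x a hx => (QuotientGroup.eq.2 hx).symm
          have hstep : ∀ a, a + 1 < N → π ((g * w a : G) : G ⧸ L) =
              ((g * w (a + 1) : G) : G ⧸ L) := by
            intro a ha
            have h1 : ((g * w a : G) : G ⧸ H) = v := by
              rw [← hgv, eq_comm, QuotientGroup.eq, inv_mul_cancel_left]
              exact hw.mem a (by omega)
            have h2 := hπ (g * w a) a ha (by
              rw [h1]
              change (g * w a)⁻¹ * (g * w a) ∈ L
              rw [inv_mul_cancel]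
              exact L.one_mem)
            rw [h1] at h2
            exact h2
          have e1 := hcell _ i hpD
          have e2 := hcell _ j hqD
          have hmem : ((el y' : G) : G ⧸ L) ∈ win π (el y) := by
            simp only [win, mem_insert, mem_singleton]
            rw [e1, e2]
            rcases Nat.lt_or_ge i j with h | h
            · right
              rcases Nat.lt_or_ge (i + 1) j with h' | h'
              · right
                obtain rfl : j = i + 1 + 1 := by omega
                rw [hstep i (by omega), hstep (i + 1) (by omega)]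
              · left
                obtain rfl : j = i + 1 := by omega
                rw [hstep i (by omega)]
            · left
              obtain rfl : i = j := by omega
              rfl
          have hmem' : ((el y' : G) : G ⧸ L) ∈ win π (el y') := by simp [win]
          exact disjoint_left.1 hd hmem hmem'
      intro i j hi hj p hp q hq hpD hqD
      by_cases h1 : i + 3 ≤ j
      · exact Or.inr (Or.inl h1)
      by_cases h2 : j + 3 ≤ i
      · exact Or.inr (Or.inr h2)
      left
      rcases Nat.le_total i j with h | h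
      · exact key i j h (by omega) hi hj p hp q hq hpD hqD
      · exact (key j i h (by omega) hj hi q hq p hp hqD hpD).symm
    have hmain := (chain_main (hcells g) hsep (N - 1) (by omega)).1
    refine star_of_cyc _ _ _ _ ?_ ?_
    · intro a b
      obtain ⟨c, hc, h1, h2⟩ := (hcells g).three (N - 1) (by omega) a b
      exact ⟨c, (hpart c).1 ⟨N - 1, le_rfl, hc⟩, h1, h2⟩
    · intro M hM
      have hU : Un (Dc L w g) (N - 1) = {x : G | (x : G ⧸ H) = v} := by
        ext x
        exact hpart x
      have hS : {x : G | x ∈ T ∧ (x : G ⧸ H) = v} = T ∩ Un (Dc L w g) (N - 1) := by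
        rw [hU]
        rfl
      rw [hS] at hM
      obtain ⟨h, rest, -, hC⟩ := hmain M hM
      rw [hU] at hC
      exact ⟨_, hC⟩
  · -- parity
    intro v
    have h1 := even_half (sv H C) (tv H C) F hF2 v
    have h2 : {x : G | x ∈ T ∧ (x : G ⧸ H) = v} =
        ((univ.filter (fun y : F × Bool => (if y.2 then tv H C y.1 else sv H C y.1) = v)).image
          el : Finset G) := by
      ext x
      simp only [Set.mem_ofPred_eq, coe_image, coe_filter, mem_univ, true_and, Set.mem_image]
      constructor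
      · rintro ⟨⟨y, rfl⟩, hm⟩
        exact ⟨y, by rw [← hat]; exact hm, rfl⟩
      · rintro ⟨y, hy, rfl⟩
        exact ⟨⟨y, rfl⟩, by rw [hat]; exact hy⟩
    rw [h2, Set.ncard_coe_finset, card_image_of_injective _ hinj]
    exact h1
  · -- connectivity
    intro P hP hne
    refine hF3 P ?_ hne
    intro q hq
    have h1 := hP (el (⟨q, hq⟩, false)) ⟨_, rfl⟩
    have h2 := hP (el (⟨q, hq⟩, true)) ⟨_, rfl⟩
    rw [hμ0] at h1 h2
    exact ⟨h1, h2⟩

end Pool.Agent.Helper43.LG
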