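import Pool.Agent.Helper43.LG.Group
import Pool.Agent.Helper43.TW.Apply
import Pool.Agent.Helper43.CQ.Grid

/-!
# Two kinds of chains of cosets
-/

set_option autoImplicit false

namespace Pool.Agent.Helper43.LG

open Pool.Agent.Helper43.CQ Pool.Agent.Helper43.TW

variable {G : Type*} [Group G]

theorem mem_Dc {L : Subgroup G} {w : ℕ → G} {g : G} {j : ℕ} {x y : G} (hx : x ∈ Dc L w g j) :
    y ∈ Dc L w g j ↔ x⁻¹ * y ∈ L := by
  have e : (g * w j)⁻¹ * y = (g * w j)⁻¹ * x * (x⁻¹ * y) := by group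
  change (g * w j)⁻¹ * y ∈ L ↔ _
  rw [e]
  exact Subgroup.mul_mem_cancel_left L hx

/-- the common part of the two constructions -/
theorem cells_common [Finite G] {A : Set G} (hA : ∀ x ∈ A, x⁻¹ ∈ A) {L H : Subgroup G}
    (hnorm : ∀ h ∈ H, ∀ x ∈ L, h * x * h⁻¹ ∈ L) {N : ℕ} {w : ℕ → G}
    (hw : Reps L H N w) (h3 : 3 ≤ Nat.card L)
    (hstep : ∀ i, i + 1 < N → (w i)⁻¹ * w (i + 1) ∈ A) (g : G) (W : ℕ → G → G → Prop)
    (hWs : ∀ j x y, W j x y → W j y x)
    (hpath : ∀ j < N, ∀ x ∈ Dc L w g j, ∀ y ∈ Dc L w g j, x ≠ y → W j x y →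
      HP (fun u v => u⁻¹ * v ∈ A ∧ (j + 1 < N → W (j + 1) (phi w j u) (phi w j v)))
        (Dc L w g j) x y)
    (hdouble : ∀ j, j + 1 < N → ∀ s ∈ Dc L w g j, ∀ t ∈ Dc L w g (j + 1),
      (∀ z, z ∈ Dc L w g j → z ∉ Dc L w g (j + 1)) →
      HP (cadj A) (Dc L w g j ∪ Dc L w g (j + 1)) s t)
    (hstart : ∀ j < N, ∀ p ∈ Dc L w g j, ∃ s ∈ Dc L w g j, s ≠ p ∧ W j s p ∧ s⁻¹ * p ∈ A) :
    Cells (fun x y => x⁻¹ * y ∈ A) N (Dc L w g) (phi w) W := by
  classical
  have hcard : ∀ j, (Dc L w g j).ncard = Nat.card L := by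
    intro j
    have e : Dc L w g j = (fun l : G => g * w j * l) '' (L : Set G) := by
      ext x
      constructor
      · intro hx
        exact ⟨(g * w j)⁻¹ * x, hx, mul_inv_cancel_left _ _⟩
      · rintro ⟨l, hl, rfl⟩
        change (g * w j)⁻¹ * (g * w j * l) ∈ L
        rwa [inv_mul_cancel_left]
    rw [e, Set.ncard_image_of_injective _ (mul_right_injective _)]
    rfl
  have hdisj : ∀ i j, i < N → j < N → ∀ x, x ∈ Dc L w g i → x ∈ Dc L w g j → i = j := by
    intro i j hi hj x h1 h2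
    apply hw.inj i j hi hj
    have e : (w i)⁻¹ * w j = ((g * w i)⁻¹ * x) * ((g * w j)⁻¹ * x)⁻¹ := by group
    rw [e]
    exact L.mul_mem h1 (L.inv_mem h2)
  have hcH : ∀ j, j + 1 < N → (w j)⁻¹ * w (j + 1) ∈ H := fun j hj =>
    H.mul_mem (H.inv_mem (hw.mem j (by omega))) (hw.mem (j + 1) hj)
  refine ⟨?_, hdisj, ?_, ?_, ?_, ?_, hWs, ?_, ?_, hstart⟩
  · intro x y h
    have := hA _ h
    rwa [mul_inv_rev, inv_inv] at this
  · intro j hj x hx
    refine ⟨?_, ?_⟩
    · have h1 := hnorm _ (H.inv_mem (hcH j hj)) _ hx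
      change (g * w (j + 1))⁻¹ * (x * ((w j)⁻¹ * w (j + 1))) ∈ L
      have e : (g * w (j + 1))⁻¹ * (x * ((w j)⁻¹ * w (j + 1))) =
          ((w j)⁻¹ * w (j + 1))⁻¹ * ((g * w j)⁻¹ * x) * (((w j)⁻¹ * w (j + 1))⁻¹)⁻¹ := by group
      rw [e]
      exact h1
    · change x⁻¹ * (x * ((w j)⁻¹ * w (j + 1))) ∈ A
      rw [inv_mul_cancel_left]
      exact hstep j hj
  · intro j _ x _ y _ h
    exact mul_right_cancel h
  · intro j hj y hy
    refine ⟨y * ((w j)⁻¹ * w (j + 1))⁻¹, ?_, ?_⟩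
    · have h1 := hnorm _ (hcH j hj) _ hy
      change (g * w j)⁻¹ * (y * ((w j)⁻¹ * w (j + 1))⁻¹) ∈ L
      have e : (g * w j)⁻¹ * (y * ((w j)⁻¹ * w (j + 1))⁻¹) =
          ((w j)⁻¹ * w (j + 1)) * ((g * w (j + 1))⁻¹ * y) * ((w j)⁻¹ * w (j + 1))⁻¹ := by group
      rw [e]
      exact h1
    · change y * ((w j)⁻¹ * w (j + 1))⁻¹ * ((w j)⁻¹ * w (j + 1)) = y
      rw [inv_mul_cancel_right]
  · intro j _ a b
    by_contra hno
    push Not at hno
    have hsub : Dc L w g j ⊆ {a, b} := by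
      intro c hc
      by_cases h : c = a
      · exact Or.inl h
      · exact Or.inr (hno c hc h)
    have h1 := Set.ncard_le_ncard hsub (Set.toFinite _)
    have h2 := Set.ncard_insert_le a {b}
    rw [Set.ncard_singleton] at h2
    rw [hcard] at h1
    omega
  · intro j hj x hx y hy hxy hW
    obtain ⟨l, h1, h2, h3, h4, h5⟩ := hpath j hj x hx y hy hxy hW
    exact ⟨l, h1, h2, h3, h4, h5⟩
  · intro j hj s hs t ht
    obtain ⟨l, h1, h2, h3, h4, h5⟩ := hdouble j hj s hs t ht (fun z h1 h2 => by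
      have := hdisj j (j + 1) (by omega) hj z h1 h2
      omega)
    exact ⟨l, h1, h2, h3, h4, h5⟩

/-- Hamilton-connected cells -/
theorem cells_connected [Finite G] {A : Set G} (hA : ∀ x ∈ A, x⁻¹ ∈ A) {L H : Subgroup G}
    (hnorm : ∀ h ∈ H, ∀ x ∈ L, h * x * h⁻¹ ∈ L) {N : ℕ} {w : ℕ → G}
    (hw : Reps L H N w) (h3 : 3 ≤ Nat.card L)
    (hstep : ∀ i, i + 1 < N → (w i)⁻¹ * w (i + 1) ∈ A) (hcon : HamConnected A L) (g : G) :
    Cells (fun x y => x⁻¹ * y ∈ A) N (Dc L w g) (phi w) (fun _ _ _ => True) := by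
  have hgood := good_iff_connected.2 hcon
  have hHP : ∀ j, ∀ x ∈ Dc L w g j, ∀ y ∈ Dc L w g j, x ≠ y → HP (cadj A) (Dc L w g j) x y := by
    intro j x hx y hy hxy
    have h1 : HP (cadj A) (L : Set G) 1 (x⁻¹ * y) := by
      refine hgood _ ((mem_Dc hx).1 hy) ?_
      change x⁻¹ * y ≠ 1
      intro h
      exact hxy (inv_mul_eq_one.1 h)
    have h2 := HP_coset h1
    have h4 : {v | x⁻¹ * v ∈ L} = Dc L w g j := by
      ext v
      exact (mem_Dc hx).symm
    rwa [h4] at h2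
  have hthree : ∀ j, ∀ a b, ∃ c ∈ Dc L w g j, c ≠ a ∧ c ≠ b := by
    classical
    intro j a b
    by_contra hno
    push Not at hno
    have hsub : (L : Set G) ⊆ {(g * w j)⁻¹ * a, (g * w j)⁻¹ * b} := by
      intro c hc
      have h1 : g * w j * c ∈ Dc L w g j := by
        change (g * w j)⁻¹ * (g * w j * c) ∈ L
        rwa [inv_mul_cancel_left]
      by_cases h : g * w j * c = a
      · left
        rw [← h, inv_mul_cancel_left]
      · right
        have := hno _ h1 h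
        rw [← this, inv_mul_cancel_left]
        rfl
    have h1 := Set.ncard_le_ncard hsub (Set.toFinite _)
    have h2 := Set.ncard_insert_le ((g * w j)⁻¹ * a) {(g * w j)⁻¹ * b}
    rw [Set.ncard_singleton] at h2
    have h4 : (L : Set G).ncard = Nat.card L := rfl
    omega
  have hcH : ∀ j, j + 1 < N → (w j)⁻¹ * w (j + 1) ∈ H := fun j hj =>
    H.mul_mem (H.inv_mem (hw.mem j (by omega))) (hw.mem (j + 1) hj)
  refine cells_common hA hnorm hw h3 hstep g _ (fun _ _ _ _ => trivial) ?_ ?_ ?_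
  · intro j _ x hx y hy hxy _
    exact (hHP j x hx y hy hxy).mono fun a _ b _ hab => ⟨hab, fun _ => trivial⟩
  · intro j hj s hs t ht hd
    obtain ⟨c, hc, h1, h2⟩ := hthree j s (t * ((w j)⁻¹ * w (j + 1))⁻¹)
    have hc' : c * ((w j)⁻¹ * w (j + 1)) ∈ Dc L w g (j + 1) := by
      have h1 := hnorm _ (H.inv_mem (hcH j hj)) _ hc
      change (g * w (j + 1))⁻¹ * (c * ((w j)⁻¹ * w (j + 1))) ∈ L
      have e : (g * w (j + 1))⁻¹ * (c * ((w j)⁻¹ * w (j + 1))) =
          ((w j)⁻¹ * w (j + 1))⁻¹ * ((g * w j)⁻¹ * c) * (((w j)⁻¹ * w (j + 1))⁻¹)⁻¹ := by group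
      rw [e]
      exact h1
    refine (hHP j s hs c hc h1.symm).append (hHP (j + 1) _ hc' t ht ?_) ?_ hd
    · intro h
      apply h2
      rw [← h, mul_inv_cancel_right]
    · change c⁻¹ * (c * ((w j)⁻¹ * w (j + 1))) ∈ A
      rw [inv_mul_cancel_left]
      exact hstep j hj
  · intro j _ p hp
    obtain ⟨c, hc, h1, -⟩ := hthree j p p
    obtain ⟨l, l1, l2, l3, l4, l5⟩ := hHP j p hp c hc h1.symm
    rcases l with _ | ⟨p', _ | ⟨s, l⟩⟩
    · simp at l4
    · simp only [List.head?_cons, Option.some.injEq] at l4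
      simp only [List.getLast?_singleton, Option.some.injEq] at l5
      exact absurd (l5.symm.trans l4) h1
    · simp only [List.head?_cons, Option.some.injEq] at l4
      subst l4
      refine ⟨s, (l2 s).1 (by simp), ?_, trivial, ?_⟩
      · rintro rfl
        simp at l1
      · have h6 : p'⁻¹ * s ∈ A := by
          rw [List.isChain_cons_cons] at l3
          exact l3.1
        have := hA _ h6
        rwa [mul_inv_rev, inv_inv] at this

/-- cells which are odd cycles -/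
theorem cells_odd [Finite G] {A : Set G} (hA : ∀ x ∈ A, x⁻¹ ∈ A) {a : G} (ha : a ∈ A)
    (hodd : Odd (orderOf a)) {H : Subgroup G}
    (hnorm : ∀ h ∈ H, ∀ x ∈ Subgroup.zpowers a, h * x * h⁻¹ ∈ Subgroup.zpowers a) {N : ℕ}
    {w : ℕ → G} (hw : Reps (Subgroup.zpowers a) H N w) (h3 : 3 ≤ orderOf a)
    (hstep : ∀ i, i + 1 < N → (w i)⁻¹ * w (i + 1) ∈ A)
    (hinv : ∀ i, i + 1 < N → ((w i)⁻¹ * w (i + 1))⁻¹ * a * ((w i)⁻¹ * w (i + 1)) = a ∨
      ((w i)⁻¹ * w (i + 1))⁻¹ * a * ((w i)⁻¹ * w (i + 1)) = a⁻¹) (g : G) :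
    Cells (fun x y => x⁻¹ * y ∈ A) N (Dc (Subgroup.zpowers a) w g) (phi w)
      (fun _ u v => u⁻¹ * v = a ∨ u⁻¹ * v = a⁻¹) := by
  classical
  have hinv2 : ∀ i, i + 1 < N → ∀ b, (b = a ∨ b = a⁻¹) →
      ((w i)⁻¹ * w (i + 1))⁻¹ * b * ((w i)⁻¹ * w (i + 1)) = a ∨
      ((w i)⁻¹ * w (i + 1))⁻¹ * b * ((w i)⁻¹ * w (i + 1)) = a⁻¹ := by
    intro i hi b hb
    rcases hb with rfl | rfl
    · exact hinv i hi
    · have e : ((w i)⁻¹ * w (i + 1))⁻¹ * a⁻¹ * ((w i)⁻¹ * w (i + 1)) =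
        (((w i)⁻¹ * w (i + 1))⁻¹ * a * ((w i)⁻¹ * w (i + 1)))⁻¹ := by group
      rw [e]
      rcases hinv i hi with h | h
      · rw [h]; exact Or.inr rfl
      · rw [h, inv_inv]; exact Or.inl rfl
  have hbA : ∀ b, (b = a ∨ b = a⁻¹) → b ∈ A := by
    rintro b (rfl | rfl)
    · exact ha
    · exact hA _ ha
  have hord : ∀ b, (b = a ∨ b = a⁻¹) → orderOf b = orderOf a ∧
      Subgroup.zpowers b = Subgroup.zpowers a := by
    rintro b (rfl | rfl)
    · exact ⟨rfl, rfl⟩
    · exact ⟨orderOf_inv a, Subgroup.zpowers_inv⟩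
  have hcard : Nat.card (Subgroup.zpowers a) = orderOf a := Nat.card_zpowers a
  have ha1 : a ≠ 1 := by
    rintro rfl
    rw [orderOf_one] at h3
    omega
  refine cells_common hA hnorm hw (by rw [hcard]; exact h3) hstep g _ ?_ ?_ ?_ ?_
  · rintro j x y (h | h)
    · right
      rw [← h, mul_inv_rev, inv_inv]
    · left
      have := congrArg (fun z => z⁻¹) h
      simpa using this
  · intro j hj x hx y hy hxy hW
    -- the direction
    obtain ⟨b, hb, hby⟩ : ∃ b, (b = a ∨ b = a⁻¹) ∧ x⁻¹ * y = b⁻¹ := by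
      rcases hW with h | h
      · exact ⟨a⁻¹, Or.inr rfl, by rw [inv_inv]; exact h⟩
      · exact ⟨a, Or.inl rfl, h⟩
    obtain ⟨hb1, hb2⟩ := hord b hb
    have hpos : 0 < orderOf b := by rw [hb1]; omega
    refine HP.seq (fun i : ℕ => x * b ^ i) (orderOf b - 1) ?_ ?_ ?_ ?_ ?_
    · intro i i' hi hi' h
      have h1 : b ^ i = b ^ i' := mul_left_cancel h
      exact pow_injOn_Iio_orderOf (show i < orderOf b by omega) (show i' < orderOf b by omega) h1
    · intro i _
      refine ⟨?_, fun hj' => ?_⟩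
      · change (x * b ^ i)⁻¹ * (x * b ^ (i + 1)) ∈ A
        have e : (x * b ^ i)⁻¹ * (x * b ^ (i + 1)) = b := by
          rw [pow_succ]; group
        rw [e]
        exact hbA b hb
      · change (phi w j (x * b ^ i))⁻¹ * phi w j (x * b ^ (i + 1)) = a ∨
          (phi w j (x * b ^ i))⁻¹ * phi w j (x * b ^ (i + 1)) = a⁻¹
        have e : (phi w j (x * b ^ i))⁻¹ * phi w j (x * b ^ (i + 1)) =
            ((w j)⁻¹ * w (j + 1))⁻¹ * b * ((w j)⁻¹ * w (j + 1)) := by
          unfold phi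
          rw [pow_succ]; group
        rw [e]
        exact hinv2 j hj' b hb
    · intro v
      rw [mem_Dc hx, ← hb2, mem_zpowers_iff_mem_range_orderOf]
      rw [Finset.mem_image]
      constructor
      · rintro ⟨i, hi, h⟩
        rw [Finset.mem_range] at hi
        exact ⟨i, by omega, by rw [h, mul_inv_cancel_left]⟩
      · rintro ⟨i, hi, h⟩
        exact ⟨i, Finset.mem_range.2 (by omega), by rw [← h, inv_mul_cancel_left]⟩
    · simp
    · have e : b ^ (orderOf b - 1) = b⁻¹ := by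
        rw [eq_inv_iff_mul_eq_one, ← pow_succ, Nat.sub_add_cancel hpos, pow_orderOf_eq_one]
      rw [e, ← hby, mul_inv_cancel_left]
  · intro j hj s hs t ht hd
    set c := (w j)⁻¹ * w (j + 1) with hc
    have hcA : c ∈ A := hstep j hj
    have hcH : c ∈ H := H.mul_mem (H.inv_mem (hw.mem j (by omega))) (hw.mem (j + 1) hj)
    -- position of `t`
    have hu : s⁻¹ * (t * c⁻¹) ∈ Subgroup.zpowers a := by
      rw [← mem_Dc hs]
      have h1 := hnorm _ hcH _ ht
      change (g * w j)⁻¹ * (t * c⁻¹) ∈ Subgroup.zpowers a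
      have e : (g * w j)⁻¹ * (t * c⁻¹) = c * ((g * w (j + 1))⁻¹ * t) * c⁻¹ := by
        rw [hc]; group
      rw [e]
      exact h1
    obtain ⟨b, k, hb, hk, hk2, hbk⟩ : ∃ (b : G) (k : ℕ), (b = a ∨ b = a⁻¹) ∧ k < orderOf a ∧
        k % 2 = 0 ∧ s⁻¹ * (t * c⁻¹) = b ^ k := by
      rw [mem_zpowers_iff_mem_range_orderOf, Finset.mem_image] at hu
      obtain ⟨k, hk, h⟩ := hu
      rw [Finset.mem_range] at hk
      rcases Nat.mod_two_eq_zero_or_one k with h2 | h2
      · exact ⟨a, k, Or.inl rfl, hk, h2, h.symm⟩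
      · refine ⟨a⁻¹, orderOf a - k, Or.inr rfl, by omega, ?_, ?_⟩
        · have := Nat.odd_iff.1 hodd
          omega
        · rw [← h, inv_pow, eq_inv_iff_mul_eq_one, ← pow_add, Nat.add_sub_cancel' hk.le,
            pow_orderOf_eq_one]
    obtain ⟨hb1, hb2⟩ := hord b hb
    have hgrid := grid (orderOf a + 2) (orderOf a) 2 rfl (by omega) (k : ℤ) 1 (by omega)
      (by exact_mod_cast hk) (by norm_num) (by norm_num) (by omega) (by omega) (by omega)
    have hbzpow : ∀ i j : ℤ, 0 ≤ i → i < orderOf a → 0 ≤ j → j < orderOf a → b ^ i = b ^ j →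
        i = j := by
      intro i i' h1 h2 h3 h4 h
      obtain ⟨n, rfl⟩ := Int.eq_ofNat_of_zero_le h1
      obtain ⟨n', rfl⟩ := Int.eq_ofNat_of_zero_le h3
      rw [zpow_natCast, zpow_natCast] at h
      have : n = n' := pow_injOn_Iio_orderOf (show n < orderOf b by omega)
        (show n' < orderOf b by omega) h
      rw [this]
    -- the two rows
    have row0 : ∀ i : ℤ, s * b ^ i ∈ Dc (Subgroup.zpowers a) w g j := by
      intro i
      rw [mem_Dc hs, inv_mul_cancel_left, ← hb2]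
      exact Subgroup.zpow_mem_zpowers b i
    have row1 : ∀ x, x ∈ Dc (Subgroup.zpowers a) w g j →
        x * c ∈ Dc (Subgroup.zpowers a) w g (j + 1) := by
      intro x hx
      have h1 := hnorm _ (H.inv_mem hcH) _ hx
      change (g * w (j + 1))⁻¹ * (x * c) ∈ Subgroup.zpowers a
      have e : (g * w (j + 1))⁻¹ * (x * c) = c⁻¹ * ((g * w j)⁻¹ * x) * (c⁻¹)⁻¹ := by
        rw [hc]; group
      rw [e]
      exact h1
    have rowb : ∀ x ∈ Dc (Subgroup.zpowers a) w g j, ∃ i : ℤ, 0 ≤ i ∧ i < orderOf a ∧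
        s * b ^ i = x := by
      intro x hx
      have h1 := (mem_Dc hs).1 hx
      rw [← hb2, mem_zpowers_iff_mem_range_orderOf, Finset.mem_image] at h1
      obtain ⟨n, hn, h⟩ := h1
      rw [Finset.mem_range, hb1] at hn
      exact ⟨n, by omega, by exact_mod_cast hn, by rw [zpow_natCast, h, mul_inv_cancel_left]⟩
    refine hgrid.map (fun p : ℤ × ℤ => s * b ^ p.1 * c ^ p.2) ?_ ?_ ?_ ?_ ?_
    · rintro ⟨i, ε⟩ hp ⟨i', ε'⟩ hp' h
      rw [mem_rect] at hp hp'
      obtain ⟨p1, p2, p3, p4⟩ := hp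
      obtain ⟨q1, q2, q3, q4⟩ := hp'
      have hε : ε = 0 ∨ ε = 1 := by push_cast at p4; omega
      have hε' : ε' = 0 ∨ ε' = 1 := by push_cast at q4; omega
      simp only at h
      rcases hε with rfl | rfl <;> rcases hε' with rfl | rfl
      · rw [zpow_zero, mul_one, mul_one] at h
        rw [hbzpow i i' p1 p2 q1 q2 (mul_left_cancel h)]
      · rw [zpow_zero, mul_one, zpow_one] at h
        exact absurd (h ▸ row1 _ (row0 i')) (hd _ (row0 i))
      · rw [zpow_zero, mul_one, zpow_one] at h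
        exact absurd (h ▸ row1 _ (row0 i)) (hd _ (row0 i'))
      · rw [zpow_one] at h
        rw [hbzpow i i' p1 p2 q1 q2 (mul_left_cancel (mul_right_cancel h))]
    · have hrow : ∀ (i : ℤ) (ε : ℤ), (ε = 0 ∨ ε = 1) →
          (s * b ^ i * c ^ ε)⁻¹ * (s * b ^ (i + 1) * c ^ ε) ∈ A := by
        rintro i ε (rfl | rfl)
        · have e : (s * b ^ i * c ^ (0 : ℤ))⁻¹ * (s * b ^ (i + 1) * c ^ (0 : ℤ)) = b := by
            rw [zpow_zero, mul_one, mul_one, zpow_add_one]; group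
          rw [e]
          exact hbA b hb
        · have e : (s * b ^ i * c ^ (1 : ℤ))⁻¹ * (s * b ^ (i + 1) * c ^ (1 : ℤ)) =
              c⁻¹ * b * c := by
            rw [zpow_one, zpow_add_one]; group
          rw [e]
          exact hbA _ (hinv2 j hj b hb)
      have hcol : ∀ i : ℤ, (s * b ^ i * c ^ (0 : ℤ))⁻¹ * (s * b ^ i * c ^ (1 : ℤ)) ∈ A := by
        intro i
        rw [zpow_zero, mul_one, zpow_one, inv_mul_cancel_left]
        exact hcA
      have hinvA : ∀ x y : G, x⁻¹ * y ∈ A → y⁻¹ * x ∈ A := by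
        intro x y h
        have := hA _ h
        rwa [mul_inv_rev, inv_inv] at this
      rintro ⟨i, ε⟩ hp ⟨i', ε'⟩ hp' h
      rw [mem_rect] at hp hp'
      obtain ⟨p1, p2, p3, p4⟩ := hp
      obtain ⟨q1, q2, q3, q4⟩ := hp'
      have hε : ε = 0 ∨ ε = 1 := by push_cast at p4; omega
      have hε' : ε' = 0 ∨ ε' = 1 := by push_cast at q4; omega
      change (s * b ^ i * c ^ ε)⁻¹ * (s * b ^ i' * c ^ ε') ∈ A
      rcases h with ⟨h1, h2⟩ | ⟨h1, h2⟩
      · simp only at h1 h2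
        subst h1
        rcases h2 with h2 | h2
        · obtain rfl : ε = 0 := by omega
          obtain rfl : ε' = 1 := by omega
          exact hcol i
        · obtain rfl : ε = 1 := by omega
          obtain rfl : ε' = 0 := by omega
          exact hinvA _ _ (hcol i)
      · simp only at h1 h2
        subst h1
        rcases h2 with h2 | h2
        · subst h2
          exact hrow i ε hε
        · subst h2
          exact hinvA _ _ (hrow i' ε hε)
    · intro x
      constructor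
      · rintro (hx | hx)
        · obtain ⟨i, h1, h2, h4⟩ := rowb x hx
          exact ⟨(i, 0), ⟨h1, h2, le_rfl, by norm_num⟩, by simp only [zpow_zero, mul_one]; exact h4⟩
        · have h5 : x * c⁻¹ ∈ Dc (Subgroup.zpowers a) w g j := by
            have h1 := hnorm _ hcH _ hx
            change (g * w j)⁻¹ * (x * c⁻¹) ∈ Subgroup.zpowers a
            have e : (g * w j)⁻¹ * (x * c⁻¹) = c * ((g * w (j + 1))⁻¹ * x) * c⁻¹ := by
              rw [hc]; group
            rw [e]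
            exact h1
          obtain ⟨i, h1, h2, h4⟩ := rowb _ h5
          refine ⟨(i, 1), ⟨h1, h2, by norm_num, by norm_num⟩, ?_⟩
          simp only [zpow_one]
          rw [h4, inv_mul_cancel_right]
      · rintro ⟨⟨i, ε⟩, hp, rfl⟩
        rw [mem_rect] at hp
        obtain ⟨p1, p2, p3, p4⟩ := hp
        have hε : ε = 0 ∨ ε = 1 := by push_cast at p4; omega
        rcases hε with rfl | rfl
        · left
          simp only [zpow_zero, mul_one]
          exact row0 i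
        · right
          simp only [zpow_one]
          exact row1 _ (row0 i)
    · simp
    · simp only [zpow_one, zpow_natCast]
      rw [← hbk]
      group
  · intro j _ p hp
    refine ⟨p * a⁻¹, ?_, ?_, ?_, ?_⟩
    · rw [mem_Dc hp, inv_mul_cancel_left]
      exact Subgroup.inv_mem _ (Subgroup.mem_zpowers a)
    · intro h
      apply ha1
      rwa [mul_eq_left, inv_eq_one] at h
    · left
      group
    · have e : (p * a⁻¹)⁻¹ * p = a := by group
      rw [e]
      exact ha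

end Pool.Agent.Helper43.LG
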