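import Pool.Agent.Helper43.LG.Chain

/-!
# Chains of cells: the induction
-/

set_option autoImplicit false

namespace Pool.Agent.Helper43.LG

variable {X : Type*} {R : X → X → Prop} {N : ℕ} {D : ℕ → Set X} {φ : ℕ → X → X}
  {W : ℕ → X → X → Prop} {T : Set X}

/-- the union of the cells up to `k` -/
def Un (D : ℕ → Set X) (k : ℕ) : Set X := {x | ∃ j, j ≤ k ∧ x ∈ D j}

theorem Un_zero : Un D 0 = D 0 := by
  ext x
  constructor
  · rintro ⟨j, hj, hx⟩
    obtain rfl : j = 0 := by omega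
    exact hx
  · intro hx
    exact ⟨0, le_rfl, hx⟩

theorem Un_succ (k : ℕ) : Un D (k + 1) = Un D k ∪ D (k + 1) := by
  ext x
  constructor
  · rintro ⟨j, hj, hx⟩
    rcases Nat.lt_or_ge j (k + 1) with h | h
    · exact Or.inl ⟨j, by omega, hx⟩
    · obtain rfl : j = k + 1 := by omega
      exact Or.inr hx
  · rintro (⟨j, hj, hx⟩ | hx)
    · exact ⟨j, by omega, hx⟩
    · exact ⟨k + 1, le_rfl, hx⟩

/-- the ports are separated -/
def Sep (N : ℕ) (D : ℕ → Set X) (T : Set X) : Prop :=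
  ∀ i j, i < N → j < N → ∀ p ∈ T, ∀ q ∈ T, p ∈ D i → q ∈ D j → p = q ∨ i + 3 ≤ j ∨ j + 3 ≤ i

theorem disj_Un (hc : Cells R N D φ W) {k : ℕ} (hk : k + 1 < N) (x : X) (hx : x ∈ Un D k) :
    x ∉ D (k + 1) := by
  obtain ⟨j, hj, hx⟩ := hx
  intro h
  have := hc.disj j (k + 1) (by omega) hk x hx h
  omega

/-- appending a path in new cells -/
theorem Thru.append_plain {M : X → X → Prop} {U V : Set X} {a b c d : X} {l k : List X}
    (h : Thru R M U a b l) (hk : k.Nodup) (hm : ∀ z, z ∈ k ↔ z ∈ V) (hs : Seg R c d k)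
    (hd : ∀ z, z ∈ U → z ∉ V) (hbc : R b c) : Thru R M (U ∪ V) a d (l ++ k) := by
  refine ⟨?_, ?_, ?_, ?_⟩
  · refine List.Nodup.append h.nodup hk ?_
    intro z hz hz'
    exact hd z ((h.mem z).1 hz) ((hm z).1 hz')
  · intro z
    rw [List.mem_append, h.mem z, hm z]
    rfl
  · exact h.seg.append (hs.imp fun x y hxy => Or.inl hxy) (Or.inl hbc)
  · intro u v huv
    exact (h.pairs u v huv).left _

/-- the statement on paths, with prescribed end, after two cells without ports -/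
theorem og (hc : Cells R N D φ W) {k : ℕ} (hk : k + 1 < N)
    (hO : ∀ j, j + 1 ≤ k → ∀ r ∈ T ∩ Un D j, ∀ M : X → X → Prop, Mat M ((T ∩ Un D j) \ {r}) →
      ∃ g ∈ D j, ∃ l, Thru R M (Un D j) r g l)
    (h0 : ∀ x ∈ T, x ∉ D k) (h1 : ∀ x ∈ T, x ∉ D (k + 1)) (g : X) (hg : g ∈ D (k + 1))
    (r : X) (hr : r ∈ T ∩ Un D (k + 1)) (M : X → X → Prop)
    (hM : Mat M ((T ∩ Un D (k + 1)) \ {r})) : ∃ l, Thru R M (Un D (k + 1)) r g l := by
  obtain ⟨hrT, hrU⟩ := hr
  rcases k with _ | k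
  · exfalso
    rw [Un_succ, Un_zero] at hrU
    rcases hrU with h | h
    · exact h0 r hrT h
    · exact h1 r hrT h
  · have hU : T ∩ Un D (k + 1 + 1) = T ∩ Un D k := by
      rw [Un_succ, Un_succ]
      ext x
      constructor
      · rintro ⟨hx, (h | h) | h⟩
        · exact ⟨hx, h⟩
        · exact absurd h (h0 x hx)
        · exact absurd h (h1 x hx)
      · rintro ⟨hx, h⟩
        exact ⟨hx, Or.inl (Or.inl h)⟩
    have hr' : r ∈ T ∩ Un D k := by
      rw [← hU]; exact ⟨hrT, hrU⟩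
    rw [hU] at hM
    obtain ⟨g', hg', l, hl⟩ := hO k le_rfl r hr' M hM
    obtain ⟨c1, c2⟩ := hc.cross k (by omega) g' hg'
    obtain ⟨d, d1, d2, d3⟩ := hc.double (k + 1) (by omega) (φ k g') c1 g hg
    refine ⟨l ++ d, ?_⟩
    have := hl.append_plain (V := D (k + 1) ∪ D (k + 1 + 1)) d1 d2 d3 (by
      intro z hz hz'
      rcases hz' with hz' | hz'
      · exact disj_Un hc (by omega) z hz hz'
      · exact disj_Un hc (k := k + 1) (by omega) z (by rw [Un_succ]; exact Or.inl hz) hz') c2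
    rw [Un_succ, Un_succ, Set.union_assoc]
    exact this

theorem Seg.perm_mem {l l' : List X} {U : Set X} (h : l.Perm l') (hm : ∀ x, x ∈ l' ↔ x ∈ U) :
    ∀ x, x ∈ l ↔ x ∈ U := fun x => (h.mem_iff).trans (hm x)

/-- even sets of ports: first cell -/
theorem E_zero [Nonempty X] (hc : Cells R N D φ W) (hT : Sep N D T) (hN : 0 < N) (M : X → X → Prop)
    (hM : Mat M (T ∩ Un D 0)) :
    ∃ h rest, GoodL R N D φ W 0 h ∧ Cyc R M (Un D 0) (h ++ rest) := by
  have hM0 : ∀ u v, ¬ M u v := by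
    intro u v huv
    obtain ⟨⟨h1, h2⟩, h3, h4⟩ := hM.mem huv
    rw [Un_zero] at h2 h4
    rcases hT 0 0 hN hN u h1 v h3 h2 h4 with h | h | h
    · subst h; exact hM.irr u huv
    · omega
    · omega
  obtain ⟨x⟩ := (inferInstance : Nonempty X)
  obtain ⟨p, hp, -, -⟩ := hc.three 0 hN x x
  obtain ⟨s, hs, hsp, hW, hR⟩ := hc.start 0 hN p hp
  obtain ⟨h, h1, h2, h3⟩ := hc.path 0 hN p hp s hs hsp.symm (hc.wsymm _ _ _ hW)
  refine ⟨h, [], ⟨h1, h2, h3.chain⟩, ?_⟩
  rw [List.append_nil]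
  refine ⟨h1, ?_, ?_, ?_, ?_⟩
  · rw [Un_zero]; exact h2
  · exact h3.chain.imp fun x y hxy => Or.inl hxy.1
  · intro a b ha hb
    rw [h3.head] at ha
    rw [h3.last] at hb
    simp only [Option.some.injEq] at ha hb
    subst ha; subst hb
    exact Or.inl hR
  · intro u v huv
    exact absurd huv (hM0 u v)

/-- rotating a cycle so that it starts after a cut in the last cell -/
theorem Cyc.open_cut {M : X → X → Prop} {U : Set X} {h1 h2 rest : List X}
    (hC : Cyc R M U (h1 ++ h2 ++ rest)) {x y : X} (hx : h1.getLast? = some x)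
    (hy : h2.head? = some y) (hxy : ¬ M x y) (hyx : ¬ M y x) :
    Thru R M U y x (h2 ++ rest ++ h1) := by
  have e : h1 ++ h2 ++ rest = h1 ++ (h2 ++ rest) := by simp
  rw [e] at hC
  have hC' := hC.rotate
  have n1 : h1 ≠ [] := by rintro rfl; simp at hx
  have n2 : h2 ≠ [] := by rintro rfl; simp at hy
  have e1 : (h2 ++ rest ++ h1).head? = some y := by
    rw [List.append_assoc, List.head?_append_of_ne_nil _ n2, hy]
  have e2 : (h2 ++ rest ++ h1).getLast? = some x := by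
    rw [List.getLast?_append_of_ne_nil _ n1, hx]
  refine ⟨hC'.nodup, hC'.mem, ⟨hC'.chain, e1, e2⟩, ?_⟩
  intro u v huv
  rcases hC'.pairs u v huv with h | ⟨h3, h4⟩ | ⟨h3, h4⟩
  · exact h
  · exfalso
    rw [e1] at h3
    rw [e2] at h4
    simp only [Option.some.injEq] at h3 h4
    subst h3; subst h4
    exact hyx huv
  · exfalso
    rw [e1] at h3
    rw [e2] at h4
    simp only [Option.some.injEq] at h3 h4
    subst h3; subst h4
    exact hxy huv

/-- no pair of ports in the last cell, if this has no port -/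
theorem no_pair {M : X → X → Prop} {k : ℕ} {S : Set X} (hM : Mat M S) (hS : S ⊆ T)
    (h0 : ∀ x ∈ T, x ∉ D k) {x y : X} (hx : x ∈ D k) : ¬ M x y := fun h =>
  h0 x (hS (hM.mem h).1) hx

/-- even sets of ports: the new cell has no port -/
theorem E_free [Nonempty X] (hc : Cells R N D φ W) {k : ℕ} (hk : k + 1 < N) (hT : Sep N D T)
    (h1 : ∀ x ∈ T, x ∉ D (k + 1)) (M : X → X → Prop) (hM : Mat M (T ∩ Un D (k + 1)))
    (hE : ∀ M : X → X → Prop, Mat M (T ∩ Un D k) →
      ∃ h rest, GoodL R N D φ W k h ∧ Cyc R M (Un D k) (h ++ rest)) :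
    ∃ h rest, GoodL R N D φ W (k + 1) h ∧ Cyc R M (Un D (k + 1)) (h ++ rest) := by
  have hU : T ∩ Un D (k + 1) = T ∩ Un D k := by
    rw [Un_succ]
    ext x
    constructor
    · rintro ⟨hx, h | h⟩
      · exact ⟨hx, h⟩
      · exact absurd h (h1 x hx)
    · rintro ⟨hx, h⟩
      exact ⟨hx, Or.inl h⟩
  rw [hU] at hM
  obtain ⟨h, rest, hh, hC⟩ := hE M hM
  have hpair : ∀ x y, x ∈ D k → y ∈ D k → ¬ M x y := by
    intro x y hx hy hxy
    obtain ⟨⟨a1, -⟩, a2, -⟩ := hM.mem hxy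
    rcases hT k k (by omega) (by omega) x a1 y a2 hx hy with h | h | h
    · subst h; exact hM.irr x hxy
    · omega
    · omega
  obtain ⟨v⟩ := (inferInstance : Nonempty X)
  obtain ⟨l1, l2, x, y, rfl, hx, hy, -, hxD, hyD, hxy, hRxy, hW⟩ := hh.cut hc (by omega) v
  have ho := hC.open_cut hx hy (hpair x y hxD hyD) (hpair y x hyD hxD)
  obtain ⟨x1, x2⟩ := hc.cross k hk x hxD
  obtain ⟨y1, y2⟩ := hc.cross k hk y hyD
  obtain ⟨kk, k1, k2, k3⟩ := hc.path (k + 1) hk (φ k x) x1 (φ k y) y1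
    (fun h => hxy (hc.inj k hk x hxD y hyD h)) (hW hk)
  have k4 : Seg (fun u v => R u v ∨ M u v) (φ k x) (φ k y) kk := k3.imp fun u v huv => Or.inl huv.1
  have hs := k4.append ho.seg (Or.inl (hc.symm _ _ y2))
  refine ⟨kk, l2 ++ rest ++ l1, ⟨k1, k2, k3.chain⟩, ?_, ?_, hs.chain, ?_, ?_⟩
  · refine List.Nodup.append k1 ho.nodup ?_
    intro z hz hz'
    exact disj_Un hc hk z ((ho.mem z).1 hz') ((k2 z).1 hz)
  · intro z
    rw [List.mem_append, k2, ho.mem, Un_succ, Set.mem_union, or_comm]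
  · intro a b ha hb
    rw [hs.head] at ha
    rw [hs.last] at hb
    simp only [Option.some.injEq] at ha hb
    subst ha; subst hb
    exact Or.inl x2
  · intro u v huv
    exact Or.inl ((ho.pairs u v huv).right _)

/-- consequences of the separation for a port in the new cell -/
theorem sep_port (hc : Cells R N D φ W) {k : ℕ} (hk : k + 1 < N) (hT : Sep N D T) {p : X}
    (hp : p ∈ T) (hpD : p ∈ D (k + 1)) :
    (∀ x ∈ T, x ∉ D k) ∧ (∀ j, j + 1 = k → ∀ x ∈ T, x ∉ D j) ∧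
    T ∩ Un D (k + 1) = insert p (T ∩ Un D k) ∧ p ∉ T ∩ Un D k ∧
    (∀ q ∈ T ∩ Un D k, ∃ j, k = j + 1 + 1) := by
  have key : ∀ j, j ≤ k → ∀ q ∈ T, q ∈ D j → j + 3 ≤ k + 1 := by
    intro j hj q hq hqD
    rcases hT j (k + 1) (by omega) hk q hq p hp hqD hpD with h | h | h
    · subst h
      have := hc.disj j (k + 1) (by omega) hk q hqD hpD
      omega
    · exact h
    · omega
  refine ⟨fun x hx hxD => ?_, fun j hj x hx hxD => ?_, ?_, ?_, ?_⟩
  · have := key k le_rfl x hx hxD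
    omega
  · have := key j (by omega) x hx hxD
    omega
  · rw [Un_succ]
    ext x
    constructor
    · rintro ⟨hx, h | h⟩
      · exact Or.inr ⟨hx, h⟩
      · left
        rcases hT (k + 1) (k + 1) hk hk x hx p hp h hpD with h | h | h
        · exact h
        · omega
        · omega
    · rintro (rfl | ⟨hx, h⟩)
      · exact ⟨hp, Or.inr hpD⟩
      · exact ⟨hx, Or.inl h⟩
  · rintro ⟨-, h⟩
    exact disj_Un hc hk p h hpD
  · rintro q ⟨hq, j, hj, hqD⟩
    have := key j hj q hq hqD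
    obtain ⟨m, hm⟩ : ∃ m, k = m + 2 := ⟨k - 2, by omega⟩
    exact ⟨m, hm⟩

/-- even sets of ports: the new cell has a port -/
theorem E_port (hc : Cells R N D φ W) {k : ℕ} (hk : k + 1 < N) (hT : Sep N D T) {p : X}
    (hp : p ∈ T) (hpD : p ∈ D (k + 1)) (M : X → X → Prop) (hM : Mat M (T ∩ Un D (k + 1)))
    (hO : ∀ j, j ≤ k → ∀ r ∈ T ∩ Un D j, ∀ M : X → X → Prop, Mat M ((T ∩ Un D j) \ {r}) →
      ∃ g ∈ D j, ∃ l, Thru R M (Un D j) r g l) :
    ∃ h rest, GoodL R N D φ W (k + 1) h ∧ Cyc R M (Un D (k + 1)) (h ++ rest) := by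
  obtain ⟨s1, s2, s3, s4, s5⟩ := sep_port hc hk hT hp hpD
  rw [s3] at hM
  obtain ⟨q, hpq⟩ := (hM.dom p).1 (Or.inl rfl)
  have hqp : q ≠ p := by
    rintro rfl
    exact hM.irr _ hpq
  have hq : q ∈ T ∩ Un D k := (hM.mem hpq).2.resolve_left hqp
  obtain ⟨j, rfl⟩ := s5 q hq
  have hM0 : Mat (fun u v => M u v ∧ u ≠ p ∧ u ≠ q) ((T ∩ Un D (j + 1 + 1)) \ {q}) := by
    refine (hM.erase hpq).congr ?_
    ext x
    simp only [Set.mem_sdiff, Set.mem_insert_iff, Set.mem_singleton_iff, not_or]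
    constructor
    · rintro ⟨rfl | h, h1, h2⟩
      · exact absurd rfl h1
      · exact ⟨h, h2⟩
    · rintro ⟨h, h2⟩
      refine ⟨Or.inr h, ?_, h2⟩
      rintro rfl
      exact s4 h
  obtain ⟨s, hs, hsp, hW, hR⟩ := hc.start _ hk p hpD
  obtain ⟨g0, hg0, rfl⟩ := hc.surj _ hk s hs
  obtain ⟨l, hl⟩ := og hc (k := j + 1) (by omega) (fun i hi => hO i (by omega))
    (s2 (j + 1) rfl) s1 g0 hg0 q hq _ hM0
  obtain ⟨hsl, k1, k2, k3⟩ := hc.path _ hk _ hs p hpD hsp hW
  have k4 : Seg (fun u v => R u v ∨ M u v) (φ (j + 1 + 1) g0) p hsl :=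
    k3.imp fun u v huv => Or.inl huv.1
  have k5 : Seg (fun u v => R u v ∨ M u v) q g0 l := hl.seg.imp fun u v huv =>
    huv.imp id fun h => h.1
  have hsg := k4.append k5 (Or.inr hpq)
  refine ⟨hsl, l, ⟨k1, k2, k3.chain⟩, ?_, ?_, hsg.chain, ?_, ?_⟩
  · refine List.Nodup.append k1 hl.nodup ?_
    intro z hz hz'
    exact disj_Un hc hk z ((hl.mem z).1 hz') ((k2 z).1 hz)
  · intro z
    rw [List.mem_append, k2, hl.mem, Un_succ (j + 1 + 1), Set.mem_union, or_comm]
  · intro a b ha hb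
    rw [hsg.head] at ha
    rw [hsg.last] at hb
    simp only [Option.some.injEq] at ha hb
    subst ha; subst hb
    exact Or.inl (hc.cross _ hk g0 hg0).2
  · intro u v huv
    left
    by_cases h1 : u = p
    · subst h1
      obtain rfl := hM.uniq _ _ _ huv hpq
      exact Nb.junction k4.last k5.head
    · by_cases h2 : u = q
      · subst h2
        obtain rfl := hM.uniq _ _ _ huv (hM.symm _ _ hpq)
        exact (Nb.junction k4.last k5.head).symm
      · exact (hl.pairs u v ⟨huv, h1, h2⟩).right _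

/-- odd sets of ports: first cell -/
theorem O_zero (hc : Cells R N D φ W) (hT : Sep N D T) (hN : 0 < N) (r : X)
    (hr : r ∈ T ∩ Un D 0) (M : X → X → Prop) (hM : Mat M ((T ∩ Un D 0) \ {r})) :
    ∃ g ∈ D 0, ∃ l, Thru R M (Un D 0) r g l := by
  rw [Un_zero] at hr hM
  rw [Un_zero]
  obtain ⟨hrT, hrD⟩ := hr
  have hM0 : ∀ u v, ¬ M u v := by
    intro u v huv
    obtain ⟨⟨⟨h1, h2⟩, h3⟩, -⟩ := hM.mem huv
    rcases hT 0 0 hN hN u h1 r hrT h2 hrD with h | h | h
    · exact h3 h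
    · omega
    · omega
  obtain ⟨s, hs, hsp, hW, hR⟩ := hc.start 0 hN r hrD
  obtain ⟨h, h1, h2, h3⟩ := hc.path 0 hN r hrD s hs hsp.symm (hc.wsymm _ _ _ hW)
  exact ⟨s, hs, h, h1, h2, h3.imp fun u v huv => Or.inl huv.1, fun u v huv => absurd huv (hM0 u v)⟩

/-- odd sets of ports: the new cell has no port -/
theorem O_free (hc : Cells R N D φ W) {k : ℕ} (hk : k + 1 < N) (h1 : ∀ x ∈ T, x ∉ D (k + 1))
    (r : X) (hr : r ∈ T ∩ Un D (k + 1)) (M : X → X → Prop)
    (hM : Mat M ((T ∩ Un D (k + 1)) \ {r}))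
    (hO : ∀ r ∈ T ∩ Un D k, ∀ M : X → X → Prop, Mat M ((T ∩ Un D k) \ {r}) →
      ∃ g ∈ D k, ∃ l, Thru R M (Un D k) r g l) :
    ∃ g ∈ D (k + 1), ∃ l, Thru R M (Un D (k + 1)) r g l := by
  have hU : T ∩ Un D (k + 1) = T ∩ Un D k := by
    rw [Un_succ]
    ext x
    constructor
    · rintro ⟨hx, h | h⟩
      · exact ⟨hx, h⟩
      · exact absurd h (h1 x hx)
    · rintro ⟨hx, h⟩
      exact ⟨hx, Or.inl h⟩
  rw [hU] at hM hr
  obtain ⟨g, hg, l, hl⟩ := hO r hr M hM
  obtain ⟨g1, g2⟩ := hc.cross k hk g hg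
  obtain ⟨s, hs, hsp, hW, hR⟩ := hc.start _ hk _ g1
  obtain ⟨kk, k1, k2, k3⟩ := hc.path _ hk _ g1 s hs hsp.symm (hc.wsymm _ _ _ hW)
  refine ⟨s, hs, l ++ kk, ?_⟩
  rw [Un_succ]
  exact hl.append_plain k1 k2 (k3.imp fun u v huv => huv.1) (disj_Un hc hk) g2

/-- odd sets of ports: the path starts at the port of the new cell -/
theorem O_port_self [Nonempty X] (hc : Cells R N D φ W) {k : ℕ} (hk : k + 1 < N) (hT : Sep N D T)
    {p : X} (hp : p ∈ T) (hpD : p ∈ D (k + 1)) (M : X → X → Prop)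
    (hM : Mat M ((T ∩ Un D (k + 1)) \ {p}))
    (hE : ∀ M : X → X → Prop, Mat M (T ∩ Un D k) →
      ∃ h rest, GoodL R N D φ W k h ∧ Cyc R M (Un D k) (h ++ rest)) :
    ∃ g ∈ D (k + 1), ∃ l, Thru R M (Un D (k + 1)) p g l := by
  classical
  obtain ⟨s1, s2, s3, s4, s5⟩ := sep_port hc hk hT hp hpD
  rw [s3] at hM
  have hM' : Mat M (T ∩ Un D k) := by
    refine hM.congr ?_
    ext x
    simp only [Set.mem_sdiff, Set.mem_insert_iff, Set.mem_singleton_iff]
    constructor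
    · rintro ⟨h | h, h1⟩
      · exact absurd h h1
      · exact h
    · intro h
      refine ⟨Or.inr h, ?_⟩
      rintro rfl
      exact s4 h
  obtain ⟨h, rest, hh, hC⟩ := hE M hM'
  have hpair : ∀ x y, x ∈ D k → ¬ M x y := fun x y hx hxy => s1 x (hM'.mem hxy).1.1 hx
  obtain ⟨v⟩ := (inferInstance : Nonempty X)
  obtain ⟨l1, l2, x, y, rfl, hx, hy, -, hxD, hyD, hxy, hRxy, hW⟩ := hh.cut hc (by omega) v
  have ho := hC.open_cut hx hy (hpair x y hxD) (hpair y x hyD)
  have hQ : ∀ u v, (R u v ∨ M u v) → (R v u ∨ M v u) := fun u v huv =>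
    huv.imp (hc.symm _ _) (hM.symm _ _)
  obtain ⟨x1, x2⟩ := hc.cross k hk x hxD
  obtain ⟨y1, y2⟩ := hc.cross k hk y hyD
  obtain ⟨kk, k1, k2, k3⟩ := hc.path (k + 1) hk (φ k x) x1 (φ k y) y1
    (fun h => hxy (hc.inj k hk x hxD y hyD h)) (hW hk)
  have k4 : Seg (fun u v => R u v ∨ M u v) (φ k x) (φ k y) kk := k3.imp fun u v huv => Or.inl huv.1
  obtain ⟨a1, a2, rfl⟩ := List.append_of_mem ((k2 p).2 hpD)
  obtain ⟨c1, c2⟩ := k4.cut
  set l' := l2 ++ rest ++ l1 with hl'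
  have hnd : (a1 ++ p :: a2 ++ l').Nodup := by
    refine List.Nodup.append k1 ho.nodup ?_
    intro z hz hz'
    exact disj_Un hc hk z ((ho.mem z).1 hz') ((k2 z).1 hz)
  have hmem : ∀ z, z ∈ a1 ++ p :: a2 ++ l' ↔ z ∈ Un D (k + 1) := by
    intro z
    rw [List.mem_append, k2, ho.mem, Un_succ, Set.mem_union, or_comm]
  rcases c2 with ⟨rfl, hpy⟩ | ⟨g, hg, hpg⟩
  · -- the port is the last element
    have ha1 : a1 ≠ [] := by
      rintro rfl
      have e := c1.head
      simp only [List.nil_append, List.head?_cons, Option.some.injEq] at e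
      exact hxy (hc.inj k hk x hxD y hyD (by rw [← e, hpy]))
    obtain ⟨g, -, hg, -, -⟩ := c1.split ha1 (by simp)
    have perm : ([p] ++ (l' ++ a1)).Perm (a1 ++ [p] ++ l') := by
      rw [List.perm_iff_count]
      intro z
      simp only [List.count_append]
      omega
    refine ⟨g, (k2 g).1 (by simp [hg.last_mem]), [p] ++ (l' ++ a1), ?_, ?_, ?_, ?_⟩
    · exact perm.nodup_iff.2 hnd
    · exact Seg.perm_mem perm hmem
    · refine (Seg.single p).append (ho.seg.append hg (Or.inl x2)) (Or.inl ?_)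
      rw [hpy]
      exact hc.symm _ _ y2
    · intro u v huv
      exact ((ho.pairs u v huv).left _).right _
  · have perm : ((a1 ++ [p]).reverse ++ l'.reverse ++ a2.reverse).Perm (a1 ++ p :: a2 ++ l') := by
      rw [List.perm_iff_count]
      intro z
      simp only [List.count_append, List.count_reverse, List.count_cons, List.count_nil]
      omega
    refine ⟨g, (k2 g).1 (by simp [hg.head_mem]), _, perm.nodup_iff.2 hnd,
      Seg.perm_mem perm hmem, ?_, ?_⟩
    · exact ((c1.reverse hQ).append (ho.seg.reverse hQ) (Or.inl (hc.symm _ _ x2))).append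
        (hg.reverse hQ) (Or.inl y2)
    · intro u v huv
      exact ((ho.pairs u v huv).rev.right _).left _

/-- odd sets of ports: the new cell has a port, which is not the start -/
theorem O_port_other (hc : Cells R N D φ W) {k : ℕ} (hk : k + 1 < N) (hT : Sep N D T)
    {p : X} (hp : p ∈ T) (hpD : p ∈ D (k + 1)) (r : X) (hr : r ∈ T ∩ Un D k) (M : X → X → Prop)
    (hM : Mat M ((T ∩ Un D (k + 1)) \ {r}))
    (hE : ∀ M : X → X → Prop, Mat M (T ∩ Un D k) →
      ∃ h rest, GoodL R N D φ W k h ∧ Cyc R M (Un D k) (h ++ rest)) :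
    ∃ g ∈ D (k + 1), ∃ l, Thru R M (Un D (k + 1)) r g l := by
  classical
  obtain ⟨s1, s2, s3, s4, s5⟩ := sep_port hc hk hT hp hpD
  rw [s3] at hM
  have hpr : p ≠ r := by
    rintro rfl
    exact s4 hr
  obtain ⟨q, hpq⟩ := (hM.dom p).1 ⟨Or.inl rfl, hpr⟩
  have hqp : q ≠ p := by
    rintro rfl
    exact hM.irr _ hpq
  have hqr : q ≠ r := (hM.mem hpq).2.2
  have hq : q ∈ T ∩ Un D k := (hM.mem hpq).2.1.resolve_left hqp
  -- the matching for the smaller union
  have hM0 := hM.erase hpq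
  have hM1 := hM0.insert (r := q) (b := r) (by simp) (by simp) hqr
  have hM2 : Mat (fun u v => (M u v ∧ u ≠ p ∧ u ≠ q) ∨ (u = q ∧ v = r) ∨ (u = r ∧ v = q))
      (T ∩ Un D k) := by
    refine hM1.congr ?_
    ext x
    simp only [Set.mem_sdiff, Set.mem_insert_iff, Set.mem_singleton_iff, not_or, Set.mem_union]
    constructor
    · rintro (⟨⟨h1 | h1, h2⟩, h3, h4⟩ | rfl | rfl)
      · exact absurd h1 h3
      · exact h1
      · exact hq
      · exact hr
    · intro h
      by_cases h1 : x = q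
      · exact Or.inr (Or.inl h1)
      by_cases h2 : x = r
      · exact Or.inr (Or.inr h2)
      refine Or.inl ⟨⟨Or.inr h, h2⟩, ?_, h1⟩
      rintro rfl
      exact s4 h
  set M' : X → X → Prop := fun u v =>
    (M u v ∧ u ≠ p ∧ u ≠ q) ∨ (u = q ∧ v = r) ∨ (u = r ∧ v = q) with hM'
  obtain ⟨h, rest, hh, hC⟩ := hE M' hM2
  obtain ⟨α, h', β, hh', hC', hhead, hlast⟩ := hC.norm hc.symm hM2.symm
    (show M' q r from Or.inr (Or.inl ⟨rfl, rfl⟩))
    (fun hboth => s1 q hq.1 ((hh.mem q).1 hboth.1))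
  have hg' : GoodL R N D φ W k h' := by
    rcases hh' with rfl | rfl
    · exact hh
    · exact hh.reverse hc
  obtain ⟨v, hv, hvp⟩ := hc.surj k hk p hpD
  obtain ⟨l1, l2, x, y, rfl, hx, hy, hxv, hxD, hyD, hxy, hRxy, hW⟩ := hg'.cut hc (by omega) v
  have hxp : φ k x ≠ p := by
    intro h
    exact hxv (hc.inj k hk x hxD v hv (by rw [h, hvp]))
  -- the two pieces
  have e : α ++ (l1 ++ l2) ++ β = (α ++ l1) ++ (l2 ++ β) := by simp
  rw [e] at hC' hhead hlast
  have n1 : l1 ≠ [] := by rintro rfl; simp at hx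
  have n2 : l2 ≠ [] := by rintro rfl; simp at hy
  have m1 : α ++ l1 ≠ [] := by simp [n1]
  have m2 : l2 ++ β ≠ [] := by simp [n2]
  have hseg : Seg (fun u v => R u v ∨ M' u v) q r ((α ++ l1) ++ (l2 ++ β)) :=
    ⟨hC'.chain, hhead, hlast⟩
  obtain ⟨x', y', g1, g2, -⟩ := hseg.split m1 m2
  obtain rfl : x' = x := by
    have := g1.last
    rw [List.getLast?_append_of_ne_nil _ n1, hx] at this
    exact (Option.some.inj this).symm
  obtain rfl : y' = y := by
    have := g2.head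
    rw [List.head?_append_of_ne_nil _ n2, hy] at this
    exact (Option.some.inj this).symm
  have hdis := List.disjoint_of_nodup_append hC'.nodup
  have hconv : ∀ u v, M' u v → (M u v ∧ u ≠ p ∧ u ≠ q) ∨ (u = q ∧ v = r) ∨ (u = r ∧ v = q) :=
    fun u v h => h
  have g1' : Seg (fun u v => R u v ∨ M u v) q x' (α ++ l1) := by
    refine g1.imp_mem ?_
    intro u v hu hv' huv
    rcases huv with h1 | h1 | ⟨rfl, rfl⟩ | ⟨rfl, rfl⟩
    · exact Or.inl h1
    · exact Or.inr h1.1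
    · exact absurd g2.last_mem (hdis hv')
    · exact absurd g2.last_mem (hdis hu)
  have g2' : Seg (fun u v => R u v ∨ M u v) y' r (l2 ++ β) := by
    refine g2.imp_mem ?_
    intro u v hu hv' huv
    rcases huv with h1 | h1 | ⟨rfl, rfl⟩ | ⟨rfl, rfl⟩
    · exact Or.inl h1
    · exact Or.inr h1.1
    · exact absurd hu (hdis g1.head_mem)
    · exact absurd hv' (hdis g1.head_mem)
  -- the new cell
  have hQ : ∀ u v, (R u v ∨ M u v) → (R v u ∨ M v u) := fun u v huv =>
    huv.imp (hc.symm _ _) (hM.symm _ _)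
  obtain ⟨x1, x2⟩ := hc.cross k hk x' hxD
  obtain ⟨y1, y2⟩ := hc.cross k hk y' hyD
  obtain ⟨kk, k1, k2, k3⟩ := hc.path (k + 1) hk (φ k y') y1 (φ k x') x1
    (fun h => hxy (hc.inj k hk x' hxD y' hyD h.symm)) (hc.wsymm _ _ _ (hW hk))
  have k4 : Seg (fun u v => R u v ∨ M u v) (φ k y') (φ k x') kk :=
    k3.imp fun u v huv => Or.inl huv.1
  obtain ⟨a1, a2, rfl⟩ := List.append_of_mem ((k2 p).2 hpD)
  obtain ⟨c1, c2⟩ := k4.cut
  obtain ⟨g, hg, hpg⟩ := c2.resolve_left (fun h => hxp h.2.symm)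
  have hnd : (a1 ++ p :: a2 ++ ((α ++ l1) ++ (l2 ++ β))).Nodup := by
    refine List.Nodup.append k1 hC'.nodup ?_
    intro z hz hz'
    exact disj_Un hc hk z ((hC'.mem z).1 hz') ((k2 z).1 hz)
  have hmem : ∀ z, z ∈ a1 ++ p :: a2 ++ ((α ++ l1) ++ (l2 ++ β)) ↔ z ∈ Un D (k + 1) := by
    intro z
    rw [List.mem_append, k2, hC'.mem, Un_succ, Set.mem_union, or_comm]
  have perm : ((l2 ++ β).reverse ++ (a1 ++ [p]) ++ (α ++ l1) ++ a2.reverse).Perm
      (a1 ++ p :: a2 ++ ((α ++ l1) ++ (l2 ++ β))) := by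
    rw [List.perm_iff_count]
    intro z
    simp only [List.count_append, List.count_reverse, List.count_cons, List.count_nil]
    omega
  refine ⟨g, (k2 g).1 (by simp [hg.head_mem]), _, perm.nodup_iff.2 hnd,
    Seg.perm_mem perm hmem, ?_, ?_⟩
  · exact (((g2'.reverse hQ).append c1 (Or.inl y2)).append g1' (Or.inr hpq)).append
      (hg.reverse hQ) (Or.inl x2)
  · intro u v huv
    have hjun : Nb ((l2 ++ β).reverse ++ (a1 ++ [p]) ++ (α ++ l1)) p q :=
      Nb.junction (by rw [List.getLast?_append_of_ne_nil _ (by simp)]; simp) g1'.head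
    by_cases h1 : u = p
    · subst h1
      obtain rfl := hM.uniq _ _ _ huv hpq
      exact hjun.left _
    by_cases h2 : u = q
    · subst h2
      obtain rfl := hM.uniq _ _ _ huv (hM.symm _ _ hpq)
      exact hjun.symm.left _
    have huq : v ≠ q := by
      rintro rfl
      exact h1 (hM.uniq _ _ _ (hM.symm _ _ huv) (hM.symm _ _ hpq))
    have hcl : ∀ z w, (α ++ l1 ++ (l2 ++ β)).head? = some z →
        (α ++ l1 ++ (l2 ++ β)).getLast? = some w → z = q ∧ w = r := by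
      intro z w hz hw
      rw [hhead] at hz
      rw [hlast] at hw
      exact ⟨(Option.some.inj hz).symm, (Option.some.inj hw).symm⟩
    rcases hC'.pairs u v (Or.inl ⟨huv, h1, h2⟩) with hn | ⟨h3, h4⟩ | ⟨h3, h4⟩
    · rcases hn.split with hn | hn | ⟨h3, h4⟩ | ⟨h3, h4⟩
      · exact (hn.right _).left _
      · exact ((hn.rev.left _).left _).left _
      · exfalso
        rw [g1.last] at h3
        obtain rfl := Option.some.inj h3
        rcases (hM.mem huv).1.1 with h5 | h5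
        · exact h1 h5
        · exact s1 _ h5.1 hxD
      · exfalso
        rw [g2.head] at h4
        obtain rfl := Option.some.inj h4
        rcases (hM.mem huv).1.1 with h5 | h5
        · exact h1 h5
        · exact s1 _ h5.1 hyD
    · exact absurd (hcl _ _ h3 h4).1 h2
    · exact absurd (hcl _ _ h3 h4).1 huq

/-- **Chains of cells.** -/
theorem chain_main [Nonempty X] (hc : Cells R N D φ W) (hT : Sep N D T) : ∀ k, k < N →
    (∀ M : X → X → Prop, Mat M (T ∩ Un D k) →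
      ∃ h rest, GoodL R N D φ W k h ∧ Cyc R M (Un D k) (h ++ rest)) ∧
    (∀ r ∈ T ∩ Un D k, ∀ M : X → X → Prop, Mat M ((T ∩ Un D k) \ {r}) →
      ∃ g ∈ D k, ∃ l, Thru R M (Un D k) r g l) := by
  intro k
  induction k using Nat.strong_induction_on with
  | _ k ih =>
    intro hk
    rcases k with _ | k
    · exact ⟨fun M hM => E_zero hc hT hk M hM, fun r hr M hM => O_zero hc hT hk r hr M hM⟩
    · have hO : ∀ j, j ≤ k → ∀ r ∈ T ∩ Un D j, ∀ M : X → X → Prop, Mat M ((T ∩ Un D j) \ {r}) →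
          ∃ g ∈ D j, ∃ l, Thru R M (Un D j) r g l := fun j hj => (ih j (by omega) (by omega)).2
      have hE := (ih k (by omega) (by omega)).1
      by_cases hport : ∃ p ∈ T, p ∈ D (k + 1)
      · obtain ⟨p, hp, hpD⟩ := hport
        refine ⟨fun M hM => E_port hc hk hT hp hpD M hM hO, ?_⟩
        intro r hr M hM
        by_cases hrp : r = p
        · subst hrp
          exact O_port_self hc hk hT hp hpD M hM hE
        · refine O_port_other hc hk hT hp hpD r ?_ M hM hE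
          rw [(sep_port hc hk hT hp hpD).2.2.1] at hr
          exact hr.resolve_left hrp
      · push Not at hport
        exact ⟨fun M hM => E_free hc hk hT hport M hM hE,
          fun r hr M hM => O_free hc hk hport r hr M hM (hO k le_rfl)⟩

end Pool.Agent.Helper43.LG
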