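import Mathlib

/-!
# Paths given by lists, with prescribed pairs
-/

set_option autoImplicit false

namespace Pool.Agent.Helper43.LG

variable {X : Type*} {Q : X → X → Prop}

/-- `l` is a `Q`-chain from `a` to `b` -/
structure Seg (Q : X → X → Prop) (a b : X) (l : List X) : Prop where
  chain : l.IsChain Q
  head : l.head? = some a
  last : l.getLast? = some b

theorem Seg.single (a : X) : Seg Q a a [a] := ⟨List.IsChain.singleton a, rfl, rfl⟩

theorem Seg.ne_nil {a b : X} {l : List X} (h : Seg Q a b l) : l ≠ [] := by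
  rintro rfl
  exact absurd h.head (by simp)

theorem Seg.append {a b c d : X} {l k : List X} (h1 : Seg Q a b l) (h2 : Seg Q c d k)
    (h : Q b c) : Seg Q a d (l ++ k) := by
  refine ⟨h1.chain.append h2.chain ?_, ?_, ?_⟩
  · intro x hx y hy
    rw [h1.last] at hx
    rw [h2.head] at hy
    simp only [Option.mem_def, Option.some.injEq] at hx hy
    rw [← hx, ← hy]
    exact h
  · rw [List.head?_append, h1.head]
    rfl
  · rw [List.getLast?_append, h2.last]
    rfl

theorem Seg.reverse {a b : X} {l : List X} (hQ : ∀ x y, Q x y → Q y x) (h : Seg Q a b l) :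
    Seg Q b a l.reverse := by
  refine ⟨?_, ?_, ?_⟩
  · rw [List.isChain_reverse]
    exact h.chain.imp fun x y hxy => hQ x y hxy
  · rw [List.head?_reverse]
    exact h.last
  · rw [List.getLast?_reverse]
    exact h.head

theorem Seg.imp_mem {Q' : X → X → Prop} {a b : X} {l : List X} (h : Seg Q a b l)
    (H : ∀ x y, x ∈ l → y ∈ l → Q x y → Q' x y) : Seg Q' a b l :=
  ⟨h.chain.imp_of_mem_imp H, h.head, h.last⟩

theorem Seg.imp {Q' : X → X → Prop} {a b : X} {l : List X} (h : Seg Q a b l)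
    (H : ∀ x y, Q x y → Q' x y) : Seg Q' a b l :=
  h.imp_mem fun x y _ _ => H x y

theorem exists_head {l : List X} (h : l ≠ []) : ∃ a, l.head? = some a := by
  cases l with
  | nil => exact absurd rfl h
  | cons a l => exact ⟨a, rfl⟩

theorem exists_last {l : List X} (h : l ≠ []) : ∃ a, l.getLast? = some a :=
  ⟨l.getLast h, List.getLast?_eq_some_getLast h⟩

theorem Seg.split {a b : X} {l k : List X} (h : Seg Q a b (l ++ k)) (hl : l ≠ []) (hk : k ≠ []) :
    ∃ x y, Seg Q a x l ∧ Seg Q y b k ∧ Q x y := by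
  obtain ⟨x, hx⟩ := exists_last hl
  obtain ⟨y, hy⟩ := exists_head hk
  have h1 := List.isChain_append.1 h.chain
  refine ⟨x, y, ⟨h1.1, ?_, hx⟩, ⟨h1.2.1, hy, ?_⟩, h1.2.2 x hx y hy⟩
  · have := h.head
    rwa [List.head?_append_of_ne_nil _ hl] at this
  · have := h.last
    rwa [List.getLast?_append_of_ne_nil _ hk] at this

theorem Seg.head_mem {a b : X} {l : List X} (h : Seg Q a b l) : a ∈ l :=
  List.mem_of_mem_head? h.head

theorem Seg.last_mem {a b : X} {l : List X} (h : Seg Q a b l) : b ∈ l :=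
  List.mem_of_mem_getLast? h.last

/-- cutting at an element -/
theorem Seg.cut {a b p : X} {k1 k2 : List X} (h : Seg Q a b (k1 ++ p :: k2)) :
    Seg Q a p (k1 ++ [p]) ∧ ((k2 = [] ∧ p = b) ∨ ∃ g, Seg Q g b k2 ∧ Q p g) := by
  by_cases hk : k2 = []
  · subst hk
    have h1 := h.last
    simp only [List.getLast?_append, List.getLast?_singleton, Option.some_or,
      Option.some.injEq] at h1
    subst h1
    exact ⟨h, Or.inl ⟨rfl, rfl⟩⟩
  · have e : k1 ++ p :: k2 = (k1 ++ [p]) ++ k2 := by simp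
    rw [e] at h
    obtain ⟨x, y, h1, h2, h3⟩ := h.split (by simp) hk
    have h4 := h1.last
    simp only [List.getLast?_append, List.getLast?_singleton, Option.some_or,
      Option.some.injEq] at h4
    subst h4
    exact ⟨h1, Or.inr ⟨y, h2, h3⟩⟩

/-- `u`, `v` are neighbours in the list `l` -/
def Nb (l : List X) (u v : X) : Prop := [u, v] <:+: l ∨ [v, u] <:+: l

theorem Nb.symm {l : List X} {u v : X} (h : Nb l u v) : Nb l v u := Or.symm h

theorem Nb.left {l : List X} {u v : X} (h : Nb l u v) (k : List X) : Nb (l ++ k) u v := by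
  rcases h with h | h
  · exact Or.inl (h.trans (List.infix_append' [] l k |>.trans (by simp)))
  · exact Or.inr (h.trans (List.infix_append' [] l k |>.trans (by simp)))

theorem Nb.right {l : List X} {u v : X} (h : Nb l u v) (k : List X) : Nb (k ++ l) u v := by
  rcases h with h | h
  · exact Or.inl (h.trans (List.suffix_append k l).isInfix)
  · exact Or.inr (h.trans (List.suffix_append k l).isInfix)

theorem Nb.rev {l : List X} {u v : X} (h : Nb l u v) : Nb l.reverse u v := by
  rcases h with h | h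
  · refine Or.inr ?_
    have := List.reverse_infix.2 h
    simpa using this
  · refine Or.inl ?_
    have := List.reverse_infix.2 h
    simpa using this

theorem Nb.junction {l k : List X} {u v : X} (h1 : l.getLast? = some u) (h2 : k.head? = some v) :
    Nb (l ++ k) u v := by
  obtain ⟨l', rfl⟩ := List.getLast?_eq_some_iff.1 h1
  cases k with
  | nil => exact absurd h2 (by simp)
  | cons w k =>
    simp only [List.head?_cons, Option.some.injEq] at h2
    subst h2
    exact Or.inl ⟨l', k, by simp⟩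

theorem infix_split {u v : X} : ∀ {l k : List X}, [u, v] <:+: l ++ k →
    [u, v] <:+: l ∨ [u, v] <:+: k ∨ (l.getLast? = some u ∧ k.head? = some v)
  | [], k, h => Or.inr (Or.inl (by simpa using h))
  | [x], k, h => by
    rw [List.singleton_append, List.infix_cons_iff] at h
    rcases h with h | h
    · obtain ⟨t, ht⟩ := h
      simp only [List.cons_append, List.nil_append, List.cons.injEq] at ht
      obtain ⟨rfl, rfl⟩ := ht
      exact Or.inr (Or.inr ⟨rfl, rfl⟩)
    · exact Or.inr (Or.inl h)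
  | x :: y :: l, k, h => by
    rw [List.cons_append, List.infix_cons_iff] at h
    rcases h with h | h
    · obtain ⟨t, ht⟩ := h
      simp only [List.cons_append, List.nil_append, List.cons.injEq] at ht
      obtain ⟨rfl, rfl, -⟩ := ht
      exact Or.inl ⟨[], l, by simp⟩
    · rcases infix_split (l := y :: l) h with h | h | ⟨h1, h2⟩
      · exact Or.inl (h.trans (List.suffix_cons x _).isInfix)
      · exact Or.inr (Or.inl h)
      · exact Or.inr (Or.inr ⟨by rw [List.getLast?_cons_cons]; exact h1, h2⟩)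

/-- neighbours in a concatenation -/
theorem Nb.split {l k : List X} {u v : X} (h : Nb (l ++ k) u v) :
    Nb l u v ∨ Nb k u v ∨ (l.getLast? = some u ∧ k.head? = some v) ∨
      (l.getLast? = some v ∧ k.head? = some u) := by
  rcases h with h | h
  · rcases infix_split h with h | h | h
    · exact Or.inl (Or.inl h)
    · exact Or.inr (Or.inl (Or.inl h))
    · exact Or.inr (Or.inr (Or.inl h))
  · rcases infix_split h with h | h | h
    · exact Or.inl (Or.inr h)
    · exact Or.inr (Or.inl (Or.inr h))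
    · exact Or.inr (Or.inr (Or.inr h))

theorem Nb.mem_left {l : List X} {u v : X} (h : Nb l u v) : u ∈ l := by
  rcases h with h | h
  · exact h.subset (by simp)
  · exact h.subset (by simp)

theorem Nb.mem_right {l : List X} {u v : X} (h : Nb l u v) : v ∈ l := h.symm.mem_left

/-- `l` is a Hamiltonian path of `U` from `a` to `b` whose steps are in `R` or pairs of `M`, and
which uses all pairs of `M`. -/
structure Thru (R M : X → X → Prop) (U : Set X) (a b : X) (l : List X) : Prop where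
  nodup : l.Nodup
  mem : ∀ x, x ∈ l ↔ x ∈ U
  seg : Seg (fun u v => R u v ∨ M u v) a b l
  pairs : ∀ u v, M u v → Nb l u v

/-- matchings with a given set of vertices -/
structure Mat (M : X → X → Prop) (S : Set X) : Prop where
  symm : ∀ u v, M u v → M v u
  uniq : ∀ u v w, M u v → M u w → v = w
  irr : ∀ u, ¬ M u u
  dom : ∀ u, u ∈ S ↔ ∃ v, M u v

theorem Mat.mem {M : X → X → Prop} {S : Set X} (h : Mat M S) {u v : X} (huv : M u v) :
    u ∈ S ∧ v ∈ S :=
  ⟨(h.dom u).2 ⟨v, huv⟩, (h.dom v).2 ⟨u, h.symm _ _ huv⟩⟩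

/-- removing a pair -/
theorem Mat.erase {M : X → X → Prop} {S : Set X} (h : Mat M S) {p q : X} (hpq : M p q) :
    Mat (fun u v => M u v ∧ u ≠ p ∧ u ≠ q) (S \ {p, q}) := by
  have key : ∀ u v, M u v → u ≠ p → u ≠ q → v ≠ p ∧ v ≠ q := by
    intro u v huv h1 h2
    constructor
    · rintro rfl
      exact h2 (h.uniq _ _ _ (h.symm _ _ huv) hpq)
    · rintro rfl
      exact h1 (h.uniq _ _ _ (h.symm _ _ huv) (h.symm _ _ hpq))
  refine ⟨?_, ?_, ?_, ?_⟩
  · rintro u v ⟨huv, h1, h2⟩
    exact ⟨h.symm _ _ huv, key u v huv h1 h2⟩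
  · rintro u v w ⟨h1, -⟩ ⟨h2, -⟩
    exact h.uniq _ _ _ h1 h2
  · rintro u ⟨h1, -⟩
    exact h.irr u h1
  · intro u
    simp only [Set.mem_sdiff, Set.mem_insert_iff, Set.mem_singleton_iff, not_or, h.dom u]
    constructor
    · rintro ⟨⟨v, hv⟩, h1, h2⟩
      exact ⟨v, hv, h1, h2⟩
    · rintro ⟨v, hv, h1, h2⟩
      exact ⟨⟨v, hv⟩, h1, h2⟩

/-- adding a pair -/
theorem Mat.insert {M : X → X → Prop} {S : Set X} (h : Mat M S) {r b : X} (hr : r ∉ S)
    (hb : b ∉ S) (hrb : r ≠ b) :
    Mat (fun u v => M u v ∨ (u = r ∧ v = b) ∨ (u = b ∧ v = r)) (S ∪ {r, b}) := by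
  refine ⟨?_, ?_, ?_, ?_⟩
  · rintro u v (h1 | ⟨rfl, rfl⟩ | ⟨rfl, rfl⟩)
    · exact Or.inl (h.symm _ _ h1)
    · exact Or.inr (Or.inr ⟨rfl, rfl⟩)
    · exact Or.inr (Or.inl ⟨rfl, rfl⟩)
  · rintro u v w (h1 | ⟨rfl, rfl⟩ | ⟨rfl, rfl⟩) (h2 | ⟨h2, rfl⟩ | ⟨h2, rfl⟩)
    · exact h.uniq _ _ _ h1 h2
    · subst h2; exact absurd (h.mem h1).1 hr
    · subst h2; exact absurd (h.mem h1).1 hb
    · exact absurd (h.mem h2).1 hr
    · rfl
    · exact absurd h2 hrb
    · exact absurd (h.mem h2).1 hb
    · exact absurd h2.symm hrb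
    · rfl
  · rintro u (h1 | ⟨h1, h2⟩ | ⟨h1, h2⟩)
    · exact h.irr u h1
    · exact hrb (h1.symm.trans h2)
    · exact hrb (h2.symm.trans h1)
  · intro u
    simp only [Set.mem_union, Set.mem_insert_iff, Set.mem_singleton_iff]
    constructor
    · rintro (h1 | rfl | rfl)
      · obtain ⟨v, hv⟩ := (h.dom u).1 h1
        exact ⟨v, Or.inl hv⟩
      · exact ⟨b, Or.inr (Or.inl ⟨rfl, rfl⟩)⟩
      · exact ⟨r, Or.inr (Or.inr ⟨rfl, rfl⟩)⟩
    · rintro ⟨v, h1 | ⟨rfl, rfl⟩ | ⟨rfl, rfl⟩⟩
      · exact Or.inl (h.mem h1).1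
      · exact Or.inr (Or.inl rfl)
      · exact Or.inr (Or.inr rfl)

theorem Mat.congr {M : X → X → Prop} {S S' : Set X} (h : Mat M S) (hS : S = S') : Mat M S' := by
  rw [← hS]; exact h

theorem Mat.eq_empty {M : X → X → Prop} (h : Mat M ∅) (u v : X) : ¬ M u v := fun huv =>
  (h.mem huv).1

end Pool.Agent.Helper43.LG
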