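import Pool.Agent.Helper43.LG.Assemble
import Pool.Agent.Helper43.LG.Main

/-!
# From cyclic lists to the covering property of a part
-/

set_option autoImplicit false

namespace Pool.Agent.Helper43.LG

open Equiv

theorem star_of_cyc {X V : Type*} [Finite X] [Nonempty X] (m : X → V) (R : X → X → Prop) (T : Set X) (v : V)
    (h3 : ∀ a b, ∃ c, m c = v ∧ c ≠ a ∧ c ≠ b)
    (h : ∀ M : X → X → Prop, Mat M {x | x ∈ T ∧ m x = v} → ∃ l, Cyc R M {x | m x = v} l) :
    Star m R T v := by
  classical
  intro lam hlam
  set M : X → X → Prop := fun u w => (u ∈ T ∧ m u = v) ∧ lam u = w with hMdef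
  have hM : Mat M {x | x ∈ T ∧ m x = v} := by
    refine ⟨?_, ?_, ?_, ?_⟩
    · rintro u w ⟨⟨h1, h2⟩, rfl⟩
      obtain ⟨a1, a2, a3, a4⟩ := hlam u h1 h2
      exact ⟨⟨a1, a2⟩, a3⟩
    · rintro u w w' ⟨-, rfl⟩ ⟨-, rfl⟩
      rfl
    · rintro u ⟨⟨h1, h2⟩, h⟩
      exact (hlam u h1 h2).2.2.2 h
    · intro u
      constructor
      · intro hu
        exact ⟨lam u, hu, rfl⟩
      · rintro ⟨w, hu, -⟩
        exact hu
  obtain ⟨l, hl⟩ := h M hM
  have hlen : 3 ≤ l.length := by
    by_contra hcon
    push Not at hcon
    obtain ⟨x0⟩ := (inferInstance : Nonempty X)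
    rcases l with _ | ⟨a, _ | ⟨b, _ | ⟨c, l⟩⟩⟩
    · obtain ⟨c, hc, -, -⟩ := h3 x0 x0
      have := (hl.mem c).2 hc
      simp at this
    · obtain ⟨c, hc, h4, -⟩ := h3 a a
      have := (hl.mem c).2 hc
      simp only [List.mem_singleton] at this
      exact h4 this
    · obtain ⟨c, hc, h4, h5⟩ := h3 a b
      have := (hl.mem c).2 hc
      simp only [List.mem_cons, List.not_mem_nil, or_false] at this
      rcases this with h6 | h6
      · exact h4 h6
      · exact h5 h6
    · simp at hcon
      omega
  set τ : Perm X := l.formPerm with hτ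
  have τmem : ∀ x, x ∈ l → τ x ∈ l := fun x hx => List.formPerm_apply_mem_of_mem hx
  have τnot : ∀ x, x ∉ l → τ x = x := fun x hx => List.formPerm_apply_of_notMem hx
  have hfib : ∀ x, m (τ x) = m x := by
    intro x
    by_cases hx : x ∈ l
    · rw [(hl.mem x).1 hx, (hl.mem _).1 (τmem x hx)]
    · rw [τnot x hx]
  have τget : ∀ i (hi : i < l.length), τ l[i] = l[(i + 1) % l.length]'(Nat.mod_lt _ (by omega)) :=
    fun i hi => List.formPerm_apply_getElem l hl.nodup i hi
  -- neighbours
  have hstep : ∀ x ∈ l, R x (τ x) ∨ M x (τ x) := by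
    intro x hx
    obtain ⟨i, hi, rfl⟩ := List.getElem_of_mem hx
    rw [τget i hi]
    by_cases hi' : i + 1 < l.length
    · have e : (i + 1) % l.length = i + 1 := Nat.mod_eq_of_lt hi'
      simp only [e]
      exact List.isChain_iff_getElem.1 hl.chain i hi'
    · obtain rfl : i = l.length - 1 := by omega
      have e : (l.length - 1 + 1) % l.length = 0 := by
        rw [Nat.sub_add_cancel (by omega), Nat.mod_self]
      simp only [e]
      have h1 : l.head? = some (l[0]'(by omega)) := by
        rw [List.head?_eq_getElem?, List.getElem?_eq_getElem (by omega)]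
      have h2 : l.getLast? = some (l[l.length - 1]'(by omega)) := by
        rw [List.getLast?_eq_getElem?, List.getElem?_eq_getElem (by omega)]
      exact hl.close _ _ h1 h2
  have hinf : ∀ u w, [u, w] <:+: l → τ u = w := by
    rintro u w ⟨s, t, hst⟩
    have hi : s.length + 1 < l.length := by
      rw [← hst]; simp
    have e1 : l[s.length]'(by omega) = u := by
      simp [← hst]
    have e2 : l[s.length + 1]'hi = w := by
      simp [← hst]
    have := τget s.length (by omega)
    rw [e1] at this
    rw [this]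
    have e3 : (s.length + 1) % l.length = s.length + 1 := Nat.mod_eq_of_lt hi
    simp only [e3, e2]
  have hnb : ∀ u w, M u w → τ u = w ∨ τ w = u := by
    intro u w huw
    rcases hl.pairs u w huw with (h1 | h1) | ⟨h1, h2⟩ | ⟨h1, h2⟩
    · exact Or.inl (hinf _ _ h1)
    · exact Or.inr (hinf _ _ h1)
    · right
      have e1 : l[0]'(by omega) = u := by
        rw [List.head?_eq_getElem?, List.getElem?_eq_getElem (by omega)] at h1
        exact Option.some.inj h1
      have e2 : l[l.length - 1]'(by omega) = w := by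
        rw [List.getLast?_eq_getElem?, List.getElem?_eq_getElem (by omega)] at h2
        exact Option.some.inj h2
      have := τget (l.length - 1) (by omega)
      rw [e2] at this
      rw [this]
      have e : (l.length - 1 + 1) % l.length = 0 := by
        rw [Nat.sub_add_cancel (by omega), Nat.mod_self]
      simp only [e, e1]
    · left
      have e1 : l[0]'(by omega) = w := by
        rw [List.head?_eq_getElem?, List.getElem?_eq_getElem (by omega)] at h1
        exact Option.some.inj h1
      have e2 : l[l.length - 1]'(by omega) = u := by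
        rw [List.getLast?_eq_getElem?, List.getElem?_eq_getElem (by omega)] at h2
        exact Option.some.inj h2
      have := τget (l.length - 1) (by omega)
      rw [e2] at this
      rw [this]
      have e : (l.length - 1 + 1) % l.length = 0 := by
        rw [Nat.sub_add_cancel (by omega), Nat.mod_self]
      simp only [e, e1]
  have hsq : ∀ x ∈ l, τ (τ x) ≠ x := by
    intro x hx h
    obtain ⟨i, hi, rfl⟩ := List.getElem_of_mem hx
    rw [τget i hi, τget _ (Nat.mod_lt _ (by omega)), hl.nodup.getElem_inj_iff] at h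
    rw [Nat.mod_add_mod] at h
    have h5 : (i + 1 + 1) % l.length = i % l.length := by rw [h, Nat.mod_eq_of_lt hi]
    have h6 := (Nat.modEq_iff_dvd.1 (h5 : (i + 1 + 1) ≡ i [MOD l.length]).symm)
    have h7 : ((i + 1 + 1 : ℕ) : ℤ) - (i : ℤ) = 2 := by push_cast; ring
    rw [h7] at h6
    have h8 := Int.le_of_dvd (by norm_num) h6
    omega
  have hsymm_mem : ∀ x, x ∈ l → τ.symm x ∈ l := by
    intro x hx
    by_contra h
    have h4 := τnot _ h
    rw [Equiv.apply_symm_apply] at h4
    exact h (h4 ▸ hx)
  refine ⟨τ, {x | ¬ M x (τ x)}, hfib, ⟨?_, ?_, ?_⟩, ?_⟩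
  · intro x hx hxD
    exact (hstep x ((hl.mem x).2 hx)).resolve_right hxD
  · intro x hx hT
    refine ⟨fun h => hT h.1.1, fun h => ?_⟩
    rw [Equiv.apply_symm_apply] at h
    exact hT (hM.symm _ _ h).1.1
  · intro x hx hT
    have hxl := (hl.mem x).2 hx
    simp only [Set.mem_ofPred_eq, not_not, Equiv.apply_symm_apply]
    constructor
    · intro h
      have h4 : M x (lam x) := ⟨⟨hT, hx⟩, rfl⟩
      rcases hnb _ _ h4 with h5 | h5
      · exact absurd (h5 ▸ h4) h
      · have h6 : τ.symm x = lam x := by rw [Equiv.symm_apply_eq, h5]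
        rw [h6]
        exact hM.symm _ _ h4
    · intro h h4
      have h5 := hM.uniq _ _ _ (hM.symm _ _ h) h4
      apply hsq x hxl
      rw [← h5, Equiv.apply_symm_apply]
  · intro P h1 h2 x y hx hy hxP
    have hcl : ∀ z ∈ P, τ z ∈ P := by
      intro z hz
      by_cases hzl : z ∈ l
      · by_cases hD : M z (τ z)
        · have h5 : lam z = τ z := hD.2
          rw [← h5]
          exact h2 z hD.1.1 hD.1.2 hz
        · exact (h1 z ((hl.mem z).1 hzl) hD).1 hz
      · rw [τnot z hzl]
        exact hz
    have hcyc : τ.IsCycle := List.isCycle_formPerm hl.nodup (by omega)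
    have hne : ∀ z ∈ l, τ z ≠ z := fun z hz =>
      (List.formPerm_apply_mem_ne_self_iff _ hl.nodup z hz).2 (by omega)
    have hsc := hcyc.sameCycle (hne x ((hl.mem x).2 hx)) (hne y ((hl.mem y).2 hy))
    exact Pool.Agent.H718C.perm_closed τ P hcl hsc hxP

end Pool.Agent.Helper43.LG
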